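import Pool.Agent.TH620B.Basin

set_option autoImplicit false

namespace Pool.Agent.TH620B

open Filter Topology Asymptotics Polynomial

noncomputable section

/-- the finset of attracting directions -/
def dirs (m : ℕ) (a : ℂ) : Finset ℂ := (nthRoots m (-(‖a‖ : ℂ) / a)).toFinset

lemma card_dirs {m : ℕ} (hm : 1 ≤ m) {a : ℂ} (ha : a ≠ 0) : (dirs m a).card = m := by
  classical
  have hζ := Complex.isPrimitiveRoot_exp m (by omega)
  have hna : (‖a‖ : ℂ) ≠ 0 := by exact_mod_cast norm_ne_zero_iff.2 ha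
  have hc : -(‖a‖ : ℂ) / a ≠ 0 := div_ne_zero (neg_ne_zero.2 hna) ha
  rw [dirs, Multiset.toFinset_card_of_nodup (hζ.nthRoots_nodup hc), hζ.card_nthRoots, if_pos]
  obtain ⟨z, hz⟩ := IsAlgClosed.exists_pow_nat_eq (-(‖a‖ : ℂ) / a) (show 0 < m by omega)
  exact ⟨z, hz⟩

lemma dir_of_mem {m : ℕ} (hm : 1 ≤ m) {a : ℂ} (ha : a ≠ 0) {v : ℂ} (hv : v ∈ dirs m a) :
    Dir m a (1 / (m * ‖a‖)) v := by
  classical
  rw [dirs, Multiset.mem_toFinset, mem_nthRoots (by omega)] at hv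
  have hna : ‖a‖ ≠ 0 := norm_ne_zero_iff.2 ha
  have hnaC : (‖a‖ : ℂ) ≠ 0 := by exact_mod_cast hna
  have hmR : (0 : ℝ) < m := by exact_mod_cast hm
  have hmC : (m : ℂ) ≠ 0 := by exact_mod_cast hmR.ne'
  refine ⟨hm, ha, by positivity, ?_, ?_⟩
  · have h1 : ‖v‖ ^ m = 1 := by
      rw [← norm_pow, hv, norm_div, norm_neg, Complex.norm_real, norm_norm, div_self hna]
    exact (pow_eq_one_iff_of_nonneg (norm_nonneg _) (by omega)).1 h1
  · rw [Wc, hv]
    push_cast
    field_simp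

section main

variable {P Q : ℂ[X]} {q : ℕ} {lam : ℂ} {h : ℂ → ℂ} {m : ℕ}

/-- petals lie in the basins -/
lemma Pet_subset_Bas (hP0 : P.eval 0 = 0) (hq : 1 ≤ q) (G : Germ m ((rat P Q)^[q]) h) {κ : ℝ} {v : ℂ}
    (D : Dir m (h 0) κ v) {R : ℝ} (T : Thr m (h 0) κ v ((rat P Q)^[q]) R) :
    Pet m (h 0) κ v R ⊆ Bas (rat P Q) q v := by
  intro z hz
  have e : ∀ n, (rat P Q)^[q * n] z = ((rat P Q)^[q])^[n] z := fun n => by
    rw [Function.iterate_mul]
  refine ⟨fun n h0 => ?_, ?_, ?_⟩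
  · have h1 : (rat P Q)^[q * n] z ≠ 0 := by
      rw [e]
      exact Pet_ne_zero D T.1.le (T.iter le_rfl hz n).1
    apply h1
    have hle : n ≤ q * n := Nat.le_mul_of_pos_left n hq
    obtain ⟨k, hk⟩ := Nat.exists_eq_add_of_le hle
    rw [hk, add_comm, Function.iterate_add_apply, h0, iter_zero hP0]
  · simp only [e]
    exact orbit_tendsto_zero G D T hz
  · simp only [e]
    exact dir_tendsto G D T hz

lemma Sb_reg (hf : HasDerivAt (rat P Q) lam 0) (hP0 : P.eval 0 = 0)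
    (hlam : ‖lam‖ = 1) (hq : 1 ≤ q) {v : ℂ}
    (hcrit : ∀ c, (wr P Q).eval c = 0 → c ∉ Sb (rat P Q) q lam v)
    (hinf : P.coeff (max P.natDegree Q.natDegree) / Q.coeff (max P.natDegree Q.natDegree) ∉
      Sb (rat P Q) q lam v) :
    Sb (rat P Q) q lam v ⊆ reg P Q := by
  intro z hz
  refine ⟨Sb_ne_zero hz, fun h => hinf (h ▸ hz), fun c hc hcz => ?_⟩
  apply hcrit c hc
  apply Sb_back hf (rat_zero hP0) hlam hq
  rw [hcz]; exact hz

lemma lifts (hPQ : IsCoprime P Q) (hd : 1 ≤ max P.natDegree Q.natDegree)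
    (hf : HasDerivAt (rat P Q) lam 0) (hP0 : P.eval 0 = 0)
    (hlam : ‖lam‖ = 1) (hq : 1 ≤ q) {v : ℂ} (hreg : Sb (rat P Q) q lam v ⊆ reg P Q)
    (z0 : ℂ) (M : ℕ) (r : ℝ) (hr : 0 < r)
    (hB : Metric.ball ((rat P Q)^[M] z0) r ⊆ Sb (rat P Q) q lam v) :
    ∀ k ≤ M, ∃ φ : ℂ → ℂ, ContinuousOn φ (Metric.ball ((rat P Q)^[M] z0) r) ∧
      φ ((rat P Q)^[M] z0) = (rat P Q)^[M - k] z0 ∧
      (∀ x ∈ Metric.ball ((rat P Q)^[M] z0) r, φ x ∈ Sb (rat P Q) q lam v) ∧
      (∀ x ∈ Metric.ball ((rat P Q)^[M] z0) r, (rat P Q)^[k] (φ x) = x) := by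
  intro k
  induction k with
  | zero =>
    intro _
    exact ⟨id, continuousOn_id, rfl, fun x hx => hB hx, fun x _ => rfl⟩
  | succ k ih =>
    intro hk
    obtain ⟨φ, h1, h2, h3, h4⟩ := ih (by omega)
    have he : rat P Q ((rat P Q)^[M - (k + 1)] z0) = φ ((rat P Q)^[M] z0) := by
      rw [h2, ← Function.iterate_succ_apply' (rat P Q)]
      congr 1
      omega
    obtain ⟨ψ, g1, g2, g3⟩ := lift_step hPQ hd _ r hr φ h1 (fun x hx => hreg (h3 x hx)) _ he
    refine ⟨ψ, g1, g3, fun x hx => ?_, fun x hx => ?_⟩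
    · apply Sb_back hf (rat_zero hP0) hlam hq
      rw [g2 x hx]
      exact h3 x hx
    · rw [Function.iterate_succ_apply, g2 x hx]
      exact h4 x hx

/-- the iterates have nonzero derivative on a union of basins without critical points -/
lemma hasDerivAt_Sb (hf : HasDerivAt (rat P Q) lam 0) (hP0 : P.eval 0 = 0)
    (hlam : ‖lam‖ = 1) {v : ℂ}
    (hcrit : ∀ c, (wr P Q).eval c = 0 → c ∉ Sb (rat P Q) q lam v) {z : ℂ}
    (hz : z ∈ Sb (rat P Q) q lam v) (n : ℕ) :
    ∃ D : ℂ, D ≠ 0 ∧ HasDerivAt ((rat P Q)^[n]) D z := by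
  have h0 : ∀ x ∈ Sb (rat P Q) q lam v, Q.eval x ≠ 0 := fun x hx =>
    Q_ne_of_ne (Sb_ne_zero (Sb_forward hf (rat_zero hP0) hlam hx))
  induction n with
  | zero => exact ⟨1, one_ne_zero, hasDerivAt_id z⟩
  | succ n ih =>
    obtain ⟨D, hD, hd⟩ := ih
    have hzn := Sb_forward_iter hf (rat_zero hP0) hlam hz n
    have h1 := (hasStrictDerivAt_rat (P := P) (h0 _ hzn)).hasDerivAt
    refine ⟨eval ((rat P Q)^[n] z) (wr P Q) / eval ((rat P Q)^[n] z) Q ^ 2 * D, ?_, ?_⟩
    · exact mul_ne_zero (div_ne_zero (fun h => hcrit _ h hzn) (pow_ne_zero _ (h0 _ hzn))) hD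
    · rw [Function.iterate_succ']
      exact HasDerivAt.comp z h1 hd

/-- **every cycle of basins contains a critical point or the value at infinity** -/
theorem crit_in_basin (hPQ : IsCoprime P Q) (hd : 1 ≤ max P.natDegree Q.natDegree)
    (hf : HasDerivAt (rat P Q) lam 0) (hP0 : P.eval 0 = 0)
    (hlam : ‖lam‖ = 1) (hq : 1 ≤ q) (G : Germ m ((rat P Q)^[q]) h) {v : ℂ}
    (hv : v ∈ dirs m (h 0)) (hv' : ∃ v' ∈ dirs m (h 0), ∀ j : ℕ, lam ^ j * v ≠ v')
    (hcrit : ∀ c, (wr P Q).eval c = 0 → c ∉ Sb (rat P Q) q lam v)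
    (hinf : P.coeff (max P.natDegree Q.natDegree) / Q.coeff (max P.natDegree Q.natDegree) ∉
      Sb (rat P Q) q lam v) : False := by
  have hreg := Sb_reg hf hP0 hlam hq hcrit hinf
  obtain ⟨v', hv'm, hne⟩ := hv'
  have D := dir_of_mem G.hm G.h0 hv
  have D' := dir_of_mem G.hm G.h0 hv'm
  set κ : ℝ := 1 / (m * ‖h 0‖) with hκ
  -- a threshold with differentiability
  have hev := G.hasDerivAt_g
  rw [Metric.eventually_nhds_iff] at hev
  obtain ⟨ρ, hρ, hev⟩ := hev
  obtain ⟨R, hR, hdyn⟩ := dyn G D ρ hρ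
  have T : Thr m (h 0) κ v ((rat P Q)^[q]) R := ⟨hR, fun R' hR' z hz => (hdyn R' hR' z hz).2⟩
  have hdiff : ∀ z ∈ Pet m (h 0) κ v R, DifferentiableAt ℂ ((rat P Q)^[q]) z := by
    intro z hz
    exact (hev (y := z) (by rw [dist_zero_right]; exact (hdyn R le_rfl z hz).1)).differentiableAt
  obtain ⟨R', T'⟩ := exists_thr G D'
  have hPB := Pet_subset_Bas hP0 hq G D T
  have hPB' := Pet_subset_Bas hP0 hq G D' T'
  have hPS : Pet m (h 0) κ v R ⊆ Sb (rat P Q) q lam v := fun z hz =>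
    ⟨0, by simpa using hPB hz⟩
  -- base points
  have hmem : ∀ {w : ℂ} {r : ℝ}, 0 < r → Dir m (h 0) κ w →
      Psi m κ w ((r + 1 : ℝ) : ℂ) ∈ Pet m (h 0) κ w r := by
    intro w r hr Dw
    have h1 : ((r + 1 : ℝ) : ℂ) ≠ 0 := by exact_mod_cast (by linarith : r + 1 ≠ 0)
    have h2 := Dw.W_Psi h1
    refine ⟨?_, by rw [h2]⟩
    rw [h2, Complex.ofReal_re]
    linarith
  -- the avoided ball
  obtain ⟨c', hc', hball'⟩ := ball_subset G D' T'
  obtain ⟨N', hN'⟩ := hball' _ (hmem T'.1 D')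
  set b := ((rat P Q)^[q])^[N'] (Psi m κ v' ((R' + 1 : ℝ) : ℂ)) with hb
  have hb0 : b ≠ 0 := Pet_ne_zero D' T'.1.le (T'.iter le_rfl (hmem T'.1 D') N').1
  set δ := c' * ‖b‖ with hδ
  have hδpos : 0 < δ := mul_pos hc' (norm_pos_iff.2 hb0)
  have havoid : ∀ y ∈ Sb (rat P Q) q lam v, δ ≤ ‖y - b‖ := by
    intro y hy
    by_contra hcon
    push Not at hcon
    have h1 : y ∈ Bas (rat P Q) q v' := hPB' (hN' N' le_rfl (by
      rw [Metric.mem_ball, dist_eq_norm]; exact hcon))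
    obtain ⟨j, hj⟩ := hy
    exact hne j (Bas_unique hj h1)
  -- the orbit
  obtain ⟨c, hc, hball⟩ := ball_subset G D T
  set z0 := Psi m κ v ((R + 1 : ℝ) : ℂ) with hz0
  have hz0P : z0 ∈ Pet m (h 0) κ v R := hmem hR D
  obtain ⟨N, hN⟩ := hball _ hz0P
  have hlim := deriv_ratio_tendsto G D T hz0P hdiff
  have hz0ne : z0 ≠ 0 := Pet_ne_zero D hR.le hz0P
  have hz0b : 0 < ‖z0 - b‖ := lt_of_lt_of_le hδpos (havoid _ (hPS hz0P))
  have hC : 0 < δ * (c / 2) * ‖z0‖ / ‖z0 - b‖ ^ 2 := by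
    have := norm_pos_iff.2 hz0ne
    positivity
  obtain ⟨n, hn1, hn2⟩ := ((hlim.eventually (gt_mem_nhds hC)).and (eventually_ge_atTop N)).exists
  set zn := ((rat P Q)^[q])^[n] z0 with hzn
  have hznP := (T.iter le_rfl hz0P n).1
  have hzn0 : zn ≠ 0 := Pet_ne_zero D hR.le hznP
  have hznn : 0 < ‖zn‖ := norm_pos_iff.2 hzn0
  have e : (rat P Q)^[q * n] z0 = zn := by rw [Function.iterate_mul]
  have hBS : Metric.ball ((rat P Q)^[q * n] z0) (c * ‖zn‖) ⊆ Sb (rat P Q) q lam v := by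
    rw [e]
    exact (hN n hn2).trans hPS
  obtain ⟨φ, h1, h2, h3, h4⟩ := lifts hPQ hd hf hP0 hlam hq hreg z0 (q * n) (c * ‖zn‖)
    (by positivity) hBS (q * n) le_rfl
  rw [e] at h1 h2 h3 h4
  rw [Nat.sub_self, Function.iterate_zero, id_eq] at h2
  -- derivative of the inverse branch
  have hφd : ∀ x ∈ Metric.ball zn (c * ‖zn‖), ∃ E : ℂ, E ≠ 0 ∧
      HasDerivAt ((rat P Q)^[q * n]) E (φ x) ∧ HasDerivAt φ E⁻¹ x := by
    intro x hx
    obtain ⟨E, hE, hEd⟩ := hasDerivAt_Sb hf hP0 hlam hcrit (h3 x hx) (q * n)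
    refine ⟨E, hE, hEd, ?_⟩
    refine HasDerivAt.of_local_left_inverse ?_ hEd hE ?_
    · exact h1.continuousAt (Metric.isOpen_ball.mem_nhds hx)
    · filter_upwards [Metric.isOpen_ball.mem_nhds hx] with y hy
      exact h4 y hy
  have hsub : Metric.closedBall zn (c / 2 * ‖zn‖) ⊆ Metric.ball zn (c * ‖zn‖) := by
    apply Metric.closedBall_subset_ball
    nlinarith
  obtain ⟨E, hE, hE1, hE2⟩ := hφd zn (Metric.mem_ball_self (by positivity))
  rw [h2] at hE1
  have hHd : ∀ x ∈ Metric.ball zn (c * ‖zn‖), DifferentiableAt ℂ (fun x => (φ x - b)⁻¹) x := by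
    intro x hx
    obtain ⟨E', _, _, hE'⟩ := hφd x hx
    refine (hE'.differentiableAt.sub_const b).inv ?_
    have := havoid _ (h3 x hx)
    exact norm_ne_zero_iff.1 (by linarith)
  have hcauchy : ‖deriv (fun x => (φ x - b)⁻¹) zn‖ ≤ (1 / δ) / (c / 2 * ‖zn‖) := by
    apply Complex.norm_deriv_le_of_forall_mem_sphere_norm_le (by positivity)
    · apply DifferentiableOn.diffContOnCl
      rw [closure_ball _ (by positivity)]
      intro x hx
      exact (hHd x (hsub hx)).differentiableWithinAt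
    · intro x hx
      rw [norm_inv, ← one_div]
      exact one_div_le_one_div_of_le hδpos (havoid _ (h3 x (hsub (Metric.sphere_subset_closedBall hx))))
  have hderH : deriv (fun x => (φ x - b)⁻¹) zn = -E⁻¹ / (z0 - b) ^ 2 := by
    have h5 : HasDerivAt (fun x => φ x - b) E⁻¹ zn := hE2.sub_const b
    have h6 := h5.inv (by rw [h2]; exact norm_ne_zero_iff.1 hz0b.ne')
    rw [h2] at h6
    exact h6.deriv
  have hEder : deriv (((rat P Q)^[q])^[n]) z0 = E := by
    have : ((rat P Q)^[q])^[n] = (rat P Q)^[q * n] := (Function.iterate_mul _ _ _).symm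
    rw [this]
    exact hE1.deriv
  rw [hEder] at hn1
  rw [hderH, norm_div, norm_neg, norm_inv, norm_pow] at hcauchy
  have hEn : 0 < ‖E‖ := norm_pos_iff.2 hE
  have hz0n : 0 < ‖z0‖ := norm_pos_iff.2 hz0ne
  -- contradiction
  rw [div_lt_div_iff₀ hznn (by positivity)] at hn1
  rw [div_div, ← one_div, div_div, div_le_div_iff₀ (by positivity) (by positivity)] at hcauchy
  have h7 : δ * (c / 2 * ‖zn‖) ≤ ‖E‖ * ‖z0 - b‖ ^ 2 := by linarith
  nlinarith

end main

/-- the local normal form of an analytic germ tangent to the identity to high order -/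
lemma exists_germ {g : ℂ → ℂ} (hg : AnalyticAt ℂ g 0) (hne : ¬ ∀ᶠ z in 𝓝 (0 : ℂ), g z = z)
    {N : ℕ} (hN : 2 ≤ N) (hO : (fun z : ℂ => g z - z) =O[𝓝 0] (fun z : ℂ => z ^ N)) :
    ∃ m h, N ≤ m + 1 ∧ Germ m g h := by
  have hF : AnalyticAt ℂ (fun z => g z - z) 0 := hg.sub analyticAt_id
  have hne' : ¬ ∀ᶠ z in 𝓝 (0 : ℂ), g z - z = 0 := by
    intro h
    apply hne
    filter_upwards [h] with z hz
    exact sub_eq_zero.1 hz
  obtain ⟨n, h, hh, h0, heq⟩ := hF.exists_eventuallyEq_pow_smul_nonzero_iff.2 hne'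
  simp only [sub_zero, smul_eq_mul] at heq
  have hNn : N ≤ n := by
    by_contra hcon
    push Not at hcon
    obtain ⟨C, hC⟩ := hO.bound
    have h1 : ∀ᶠ z in 𝓝[≠] (0 : ℂ), ‖h z‖ ≤ C * ‖z ^ (N - n)‖ := by
      filter_upwards [heq.filter_mono nhdsWithin_le_nhds, hC.filter_mono nhdsWithin_le_nhds,
        ev_ne0] with z hz hz2 hz0
      rw [hz] at hz2
      have h3 : z ^ N = z ^ n * z ^ (N - n) := by rw [← pow_add]; congr 1; omega
      rw [h3, norm_mul, norm_mul] at hz2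
      have h4 : 0 < ‖z ^ n‖ := norm_pos_iff.2 (pow_ne_zero _ hz0)
      have h5 : ‖z ^ n‖ * ‖h z‖ ≤ ‖z ^ n‖ * (C * ‖z ^ (N - n)‖) := by linarith
      exact le_of_mul_le_mul_left h5 h4
    have h2 : Tendsto (fun z : ℂ => C * ‖z ^ (N - n)‖) (𝓝[≠] 0) (𝓝 0) := by
      have := ((tendsto_pow0 (show 1 ≤ N - n by omega)).norm).const_mul C
      simpa using this
    have h3 : Tendsto h (𝓝[≠] 0) (𝓝 (h 0)) :=
      hh.continuousAt.tendsto.mono_left nhdsWithin_le_nhds
    have h4 := le_of_tendsto_of_tendsto h3.norm h2 h1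
    exact h0 (norm_le_zero_iff.1 h4)
  refine ⟨n - 1, h, by omega, ⟨by omega, hh, h0, ?_⟩⟩
  filter_upwards [heq] with z hz
  rw [Nat.sub_add_cancel (by omega), ← hz]
  ring

/-- **Leau–Fatou bound** (weak form): the multiplicity of the parabolic fixed point `0` of the
`q`-th iterate of a rational map of degree `d ≥ 2` is at most `2 d q + 1`. -/
theorem parabolic_bound (P Q : Polynomial ℂ) (hPQ : IsCoprime P Q)
    (hd : 2 ≤ max P.natDegree Q.natDegree) (hP0 : P.eval 0 = 0) (q : ℕ) (hq : 1 ≤ q) :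
    ¬ ((fun z : ℂ => (fun w : ℂ => P.eval w / Q.eval w)^[q] z - z) =O[𝓝 0]
      (fun z : ℂ => z ^ (2 * max P.natDegree Q.natDegree * q + 2))) := by
  intro hO
  classical
  have hfeq : (fun w : ℂ => P.eval w / Q.eval w) = rat P Q := rfl
  rw [hfeq] at hO
  set d := max P.natDegree Q.natDegree with hdd
  have hd1 : 1 ≤ max P.natDegree Q.natDegree := by omega
  have hQ0 := Q_zero_ne hPQ hP0
  set lam : ℂ := (wr P Q).eval 0 / (Q.eval 0) ^ 2 with hlamdef
  have hf : HasDerivAt (rat P Q) lam 0 := (hasStrictDerivAt_rat hQ0).hasDerivAt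
  have hana : AnalyticAt ℂ (rat P Q) 0 := by
    have h1 : AnalyticAt ℂ (fun z => P.eval z) 0 := by
      exact (P.differentiable.analyticAt 0)
    have h2 : AnalyticAt ℂ (fun z => Q.eval z) 0 := by
      exact (Q.differentiable.analyticAt 0)
    exact h1.div h2 hQ0
  have hiter : ∀ n, AnalyticAt ℂ ((rat P Q)^[n]) 0 := by
    intro n
    induction n with
    | zero => exact analyticAt_id
    | succ n ih =>
      rw [Function.iterate_succ']
      apply AnalyticAt.comp _ ih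
      rw [iter_zero hP0]
      exact hana
  have hderiv : ∀ n, HasDerivAt ((rat P Q)^[n]) (lam ^ n) 0 := by
    intro n
    induction n with
    | zero => simpa using hasDerivAt_id (0 : ℂ)
    | succ n ih =>
      rw [Function.iterate_succ', pow_succ']
      apply HasDerivAt.comp 0 _ ih
      rw [iter_zero hP0]
      exact hf
  obtain ⟨m, h, hNm, G⟩ := exists_germ (hiter q) (not_id hPQ hd hP0 q hq) (by omega) hO
  -- the multiplier is a root of unity
  have hlamq : lam ^ q = 1 := by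
    have h1 := G.hasDerivAt_g.self_of_nhds
    have h2 := h1.unique (hderiv q)
    rw [← h2]
    have hm := G.hm
    have e1 : (0 : ℂ) ^ m = 0 := zero_pow (by omega)
    have e2 : (0 : ℂ) ^ (m + 1) = 0 := zero_pow (by omega)
    rw [e1, e2]; ring
  have hlam : ‖lam‖ = 1 := by
    have h1 : ‖lam‖ ^ q = 1 := by rw [← norm_pow, hlamq, norm_one]
    exact (pow_eq_one_iff_of_nonneg (norm_nonneg _) (by omega)).1 h1
  have hlam0 : lam ≠ 0 := by
    intro h0
    rw [h0] at hlam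
    simp at hlam
  have hmod : ∀ j : ℕ, lam ^ j = lam ^ (j % q) := by
    intro j
    nth_rewrite 1 [← Nat.div_add_mod j q]
    rw [pow_add, pow_mul, hlamq, one_pow, one_mul]
  set V := dirs m (h 0) with hV
  have hVcard : V.card = m := card_dirs G.hm G.h0
  set finf : ℂ := P.coeff (max P.natDegree Q.natDegree) / Q.coeff (max P.natDegree Q.natDegree)
    with hfinf
  set Cf : Finset ℂ := insert finf (wr P Q).roots.toFinset with hCf
  have hCcard : Cf.card ≤ 2 * d := by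
    refine (Finset.card_insert_le _ _).trans ?_
    have h1 : (wr P Q).roots.toFinset.card ≤ 2 * d - 1 := by
      refine (Multiset.toFinset_card_le _).trans ((Polynomial.card_roots' _).trans ?_)
      exact wr_natDegree hd1
    omega
  -- some direction is not exceptional
  have hex : ∃ v ∈ V, ∀ c ∈ Cf, c ∉ Sb (rat P Q) q lam v := by
    by_contra hcon
    push Not at hcon
    have hch : ∀ v ∈ V, ∃ c ∈ Cf, ∃ j < q, c ∈ Bas (rat P Q) q (lam ^ j * v) := by
      intro v hv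
      obtain ⟨c, hc, j, hj⟩ := hcon v hv
      exact ⟨c, hc, j % q, Nat.mod_lt _ (by omega), by rwa [← hmod]⟩
    choose! c hc j hj hb using hch
    have hle : V.card ≤ (Cf ×ˢ Finset.range q).card := by
      apply Finset.card_le_card_of_injOn (fun v => (c v, j v))
      · intro v hv
        simp only [Finset.coe_product, Finset.coe_range, Set.mem_prod, Finset.mem_coe, Set.mem_Iio]
        exact ⟨hc v hv, hj v hv⟩
      · intro v hv w hw hvw
        simp only [Prod.mk.injEq] at hvw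
        have h1 := hb v hv
        have h2 := hb w hw
        rw [← hvw.1, ← hvw.2] at h2
        exact mul_left_cancel₀ (pow_ne_zero _ hlam0) (Bas_unique h1 h2)
    rw [Finset.card_product, Finset.card_range, hVcard] at hle
    have : Cf.card * q ≤ 2 * d * q := Nat.mul_le_mul_right _ hCcard
    omega
  obtain ⟨v, hv, hvC⟩ := hex
  have hex2 : ∃ v' ∈ V, ∀ j : ℕ, lam ^ j * v ≠ v' := by
    by_contra hcon
    push Not at hcon
    have hsub : V ⊆ (Finset.range q).image (fun j => lam ^ j * v) := by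
      intro v' hv'
      obtain ⟨j, hj⟩ := hcon v' hv'
      rw [Finset.mem_image]
      exact ⟨j % q, Finset.mem_range.2 (Nat.mod_lt _ (by omega)), by rw [← hmod]; exact hj⟩
    have h1 := (Finset.card_le_card hsub).trans Finset.card_image_le
    rw [hVcard, Finset.card_range] at h1
    have h2 : q ≤ 2 * d * q := Nat.le_mul_of_pos_left q (by omega)
    omega
  refine crit_in_basin hPQ hd1 hf hP0 hlam hq G hv hex2 ?_ ?_
  · intro c hc
    apply hvC
    rw [hCf, Finset.mem_insert, Multiset.mem_toFinset, Polynomial.mem_roots (wr_ne_zero hPQ hd1)]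
    right; exact hc
  · apply hvC
    rw [hCf]
    exact Finset.mem_insert_self _ _

end

end Pool.Agent.TH620B
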