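import Pool.Agent.TH620B.Petal

set_option autoImplicit false

namespace Pool.Agent.TH620B

open Filter Topology Asymptotics

noncomputable section

variable {m : ℕ} {g h : ℂ → ℂ} {a v : ℂ} {κ : ℝ}

/-- `R` is a threshold: all petals beyond it are invariant with the right speed -/
def Thr (m : ℕ) (a : ℂ) (κ : ℝ) (v : ℂ) (g : ℂ → ℂ) (R : ℝ) : Prop :=
  0 < R ∧ ∀ R' ≥ R, ∀ z ∈ Pet m a κ v R',
      g z ∈ Pet m a κ v R' ∧ ‖Wc m a (g z) - Wc m a z - 1‖ < 1 / 2

lemma Thr.iter {R : ℝ} (T : Thr m a κ v g R) {R' : ℝ} (hR' : R ≤ R') {z : ℂ}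
    (hz : z ∈ Pet m a κ v R') (n : ℕ) :
    g^[n] z ∈ Pet m a κ v R' ∧ R' + n / 2 ≤ (Wc m a (g^[n] z)).re := by
  induction n with
  | zero => exact ⟨hz, by simpa using hz.1.le⟩
  | succ n ih =>
    rw [Function.iterate_succ_apply']
    obtain ⟨h1, h2⟩ := T.2 R' hR' _ ih.1
    refine ⟨h1, ?_⟩
    have h9 := Complex.abs_re_le_norm (Wc m a (g (g^[n] z)) - Wc m a (g^[n] z) - 1)
    simp only [Complex.sub_re, Complex.one_re] at h9
    have h10 := (abs_le.1 (h9.trans h2.le)).1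
    push_cast
    linarith [ih.2]

lemma Pet_mono {R R' : ℝ} (h : R ≤ R') : Pet m a κ v R' ⊆ Pet m a κ v R :=
  fun _ hz => ⟨lt_of_le_of_lt h hz.1, hz.2⟩

lemma Pet_ne_zero (D : Dir m a κ v) {R : ℝ} (hR : 0 ≤ R) {z : ℂ} (hz : z ∈ Pet m a κ v R) :
    z ≠ 0 := D.ne_zero_of_W (by
    intro h0
    have := hz.1
    rw [h0] at this
    simp only [Complex.zero_re] at this
    linarith)

lemma exists_thr (G : Germ m g h) (D : Dir m (h 0) κ v) : ∃ R, Thr m (h 0) κ v g R := by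
  obtain ⟨R, hR, h1⟩ := dyn G D 1 one_pos
  exact ⟨R, hR, fun R' hR' z hz => (h1 R' hR' z hz).2⟩

lemma orbit_tendsto_zero (G : Germ m g h) (D : Dir m (h 0) κ v) {R : ℝ}
    (T : Thr m (h 0) κ v g R) {z : ℂ} (hz : z ∈ Pet m (h 0) κ v R) :
    Tendsto (fun n => g^[n] z) atTop (𝓝 0) := by
  rw [Metric.tendsto_atTop]
  intro ε hε
  obtain ⟨R1, hR1, h1⟩ := dyn G D ε hε
  obtain ⟨N, hN⟩ := exists_nat_gt (2 * R1)
  refine ⟨N, fun n hn => ?_⟩
  rw [dist_zero_right]
  refine (h1 R1 le_rfl _ ⟨?_, (T.iter le_rfl hz n).1.2⟩).1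
  have h2 := (T.iter le_rfl hz n).2
  have h3 := T.1
  have h4 : (N : ℝ) ≤ n := by exact_mod_cast hn
  linarith

lemma orbit_tendsto_zero_ne (G : Germ m g h) (D : Dir m (h 0) κ v) {R : ℝ}
    (T : Thr m (h 0) κ v g R) {z : ℂ} (hz : z ∈ Pet m (h 0) κ v R) :
    Tendsto (fun n => g^[n] z) atTop (𝓝[≠] 0) := by
  rw [tendsto_nhdsWithin_iff]
  refine ⟨orbit_tendsto_zero G D T hz, Eventually.of_forall fun n => ?_⟩
  exact Pet_ne_zero D T.1.le (T.iter le_rfl hz n).1

lemma W_asymp (G : Germ m g h) (D : Dir m (h 0) κ v) {R : ℝ}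
    (T : Thr m (h 0) κ v g R) {z : ℂ} (hz : z ∈ Pet m (h 0) κ v R) :
    Tendsto (fun n : ℕ => Wc m (h 0) (g^[n] z) / n) atTop (𝓝 1) := by
  have h1 := G.tendsto_W.comp (orbit_tendsto_zero_ne G D T hz)
  have h2 := h1.cesaro_smul
  have h3 : Tendsto (fun n : ℕ => ((n : ℝ)⁻¹ : ℝ) • Wc m (h 0) z) atTop (𝓝 0) := by
    have : Tendsto (fun n : ℕ => ((n : ℝ)⁻¹ : ℝ) • Wc m (h 0) z) atTop (𝓝 ((0 : ℝ) • Wc m (h 0) z)) :=
      (tendsto_inv_atTop_nhds_zero_nat (𝕜 := ℝ)).smul_const _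
    rwa [zero_smul] at this
  have h4 := h2.add h3
  rw [add_zero] at h4
  refine h4.congr fun n => ?_
  have h5 : ∑ i ∈ Finset.range n, ((fun z => Wc m (h 0) (g z) - Wc m (h 0) z) ∘ fun n => g^[n] z) i
      = Wc m (h 0) (g^[n] z) - Wc m (h 0) z := by
    have := Finset.sum_range_sub (fun n => Wc m (h 0) (g^[n] z)) n
    simp only [Function.iterate_zero, id_eq] at this
    rw [← this]
    refine Finset.sum_congr rfl fun i _ => ?_
    simp only [Function.comp_apply, Function.iterate_succ_apply']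
  rw [h5, ← smul_add, sub_add_cancel, Complex.real_smul]
  push_cast
  rw [div_eq_inv_mul]

lemma dir_tendsto (G : Germ m g h) (D : Dir m (h 0) κ v) {R : ℝ}
    (T : Thr m (h 0) κ v g R) {z : ℂ} (hz : z ∈ Pet m (h 0) κ v R) :
    Tendsto (fun n : ℕ => g^[n] z / ‖g^[n] z‖) atTop (𝓝 v) := by
  have h1 := W_asymp G D T hz
  have harg : Tendsto (fun n : ℕ => (Wc m (h 0) (g^[n] z) / n).arg) atTop (𝓝 0) := by
    have := (Complex.continuousAt_arg (show (1 : ℂ) ∈ Complex.slitPlane by simp)).tendsto.comp h1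
    rw [Complex.arg_one] at this
    exact this
  have h2 : Tendsto (fun n : ℕ => v * Complex.exp (-((Wc m (h 0) (g^[n] z) / n).arg : ℂ) / m * Complex.I))
      atTop (𝓝 (v * Complex.exp (-((0 : ℝ) : ℂ) / m * Complex.I))) := by
    refine Tendsto.const_mul _ (Complex.continuous_exp.continuousAt.tendsto.comp ?_)
    refine Tendsto.mul_const _ (Tendsto.div_const (Tendsto.neg ?_) _)
    exact (Complex.continuous_ofReal.tendsto _).comp harg
  have h3 : v * Complex.exp (-((0 : ℝ) : ℂ) / m * Complex.I) = v := by simp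
  rw [h3] at h2
  refine h2.congr' ?_
  filter_upwards [eventually_gt_atTop 0] with n hn
  have hzn := (T.iter le_rfl hz n).1
  set w := Wc m (h 0) (g^[n] z) with hw
  have hκ := D.hκ
  have hw0 : w ≠ 0 := by
    intro h0
    have := hzn.1
    rw [← hw, h0] at this
    simp only [Complex.zero_re] at this
    linarith [T.1]
  have e1 : (w / n).arg = (w / κ).arg := by
    have h5 : w / n = ((1 / n : ℝ) : ℂ) * w := by push_cast; ring
    have h6 : w / κ = ((1 / κ : ℝ) : ℂ) * w := by push_cast; ring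
    rw [h5, h6, Complex.arg_real_mul _ (by positivity), Complex.arg_real_mul _ (by positivity)]
  have e2 : g^[n] z = v * Complex.exp (-Complex.log (w / κ) / m) := hzn.2.symm
  have e3 : ‖g^[n] z‖ = Real.exp ((-Complex.log (w / κ) / m).re) := by
    rw [e2, norm_mul, D.hv, one_mul, Complex.norm_exp]
  have e4 : -Complex.log (w / κ) / m = (((-Complex.log (w / κ) / m).re : ℝ) : ℂ) +
      (-((w / κ).arg : ℂ) / m * Complex.I) := by
    apply Complex.ext
    · simp [Complex.div_natCast_re]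
    · simp [Complex.log_im, Complex.div_natCast_im]
  rw [e3, e1]
  nth_rewrite 1 [e2]
  nth_rewrite 1 [e4]
  rw [Complex.exp_add, ← Complex.ofReal_exp]
  have : ((Real.exp ((-Complex.log (w / κ) / m).re) : ℝ) : ℂ) ≠ 0 := by
    exact_mod_cast (Real.exp_pos _).ne'
  field_simp

/-- balls of comparable radius around orbit points lie in the petal -/
lemma ball_subset (G : Germ m g h) (D : Dir m (h 0) κ v) {R : ℝ}
    (T : Thr m (h 0) κ v g R) : ∃ c : ℝ, 0 < c ∧ ∀ z ∈ Pet m (h 0) κ v R, ∃ N : ℕ, ∀ n ≥ N,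
      Metric.ball (g^[n] z) (c * ‖g^[n] z‖) ⊆ Pet m (h 0) κ v R := by
  obtain ⟨δ, hδ, hδ2, hnear⟩ := D.near
  have hpow : Tendsto (fun s : ℂ => (s ^ m)⁻¹ - 1) (𝓝 1) (𝓝 0) := by
    have h1 : ContinuousAt (fun s : ℂ => (s ^ m)⁻¹ - 1) 1 :=
      (((continuous_pow m).continuousAt).inv₀ (by simp)).sub continuousAt_const
    have h2 := h1.tendsto
    simpa using h2
  have hev := hpow.norm.eventually (gt_mem_nhds (show ‖(0 : ℂ)‖ < 1 / 4 by simp))
  rw [Metric.eventually_nhds_iff] at hev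
  obtain ⟨ε, hε, hs⟩ := hev
  refine ⟨min δ ε, lt_min hδ hε, fun z hz => ?_⟩
  have hW := W_asymp G D T hz
  have h1 := (Metric.tendsto_nhds.1 hW) (1 / 4) (by norm_num)
  have h1' := h1.and (eventually_gt_atTop 0)
  rw [eventually_atTop] at h1'
  obtain ⟨N1, hN1⟩ := h1'
  obtain ⟨N2, hN2⟩ := exists_nat_gt (R / (3 / 4 - 5 / 16))
  refine ⟨max N1 N2, fun n hn z' hz' => ?_⟩
  obtain ⟨h2, hn0⟩ := hN1 n (le_trans (le_max_left _ _) hn)
  have hnN2 : (N2 : ℝ) ≤ n := by exact_mod_cast (le_trans (le_max_right _ _) hn)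
  have hnpos : (0 : ℝ) < n := by exact_mod_cast hn0
  have hzn := (T.iter le_rfl hz n).1
  have hzn0 := Pet_ne_zero D T.1.le hzn
  set zn := g^[n] z with hznd
  have hznn : 0 < ‖zn‖ := norm_pos_iff.2 hzn0
  rw [Metric.mem_ball, dist_eq_norm] at hz'
  refine hnear R T.1.le zn hzn z' (hz'.trans_le ?_) ?_
  · exact mul_le_mul_of_nonneg_right (min_le_left _ _) hznn.le
  · set w := Wc m (h 0) zn with hw
    have hsn : ‖z' / zn - 1‖ < ε := by
      have : z' / zn - 1 = (z' - zn) / zn := by field_simp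
      rw [this, norm_div, div_lt_iff₀ hznn]
      exact hz'.trans_le (mul_le_mul_of_nonneg_right (min_le_right _ _) hznn.le)
    have h3 := hs (y := z' / zn) (by rw [dist_eq_norm]; exact hsn)
    have h4 : Wc m (h 0) z' = w + w * (((z' / zn) ^ m)⁻¹ - 1) := by
      have : z' = zn * (z' / zn) := by field_simp
      nth_rewrite 1 [this]
      rw [W_mul]
      ring
    have hre : (n : ℝ) * (3 / 4) ≤ w.re ∧ ‖w‖ ≤ n * (5 / 4) := by
      rw [dist_eq_norm] at h2
      have hnC : (n : ℂ) ≠ 0 := by exact_mod_cast hnpos.ne'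
      have h5 : w = n * (w / n - 1) + n := by
        rw [mul_sub, mul_div_cancel₀ _ hnC]
        ring
      constructor
      · have h6 := Complex.abs_re_le_norm (w / n - 1)
        have h7 := (abs_le.1 (h6.trans h2.le)).1
        have h8 : ((n : ℂ) * (w / n - 1)).re = n * (w / n - 1).re := by
          have := Complex.re_ofReal_mul (n : ℝ) (w / n - 1)
          exact_mod_cast this
        rw [h5]
        rw [Complex.add_re, Complex.natCast_re, h8]
        nlinarith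
      · rw [h5]
        refine (norm_add_le _ _).trans ?_
        rw [norm_mul, Complex.norm_natCast]
        nlinarith
    have h8 : |(w * (((z' / zn) ^ m)⁻¹ - 1)).re| ≤ n * (5 / 16) := by
      refine (Complex.abs_re_le_norm _).trans ?_
      rw [norm_mul]
      have := norm_nonneg w
      nlinarith [hre.2, norm_nonneg (((z' / zn) ^ m)⁻¹ - 1)]
    rw [h4, Complex.add_re]
    have h9 := (abs_le.1 h8).1
    have h10 : R < (N2 : ℝ) * (3 / 4 - 5 / 16) := by
      rwa [div_lt_iff₀ (by norm_num)] at hN2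
    nlinarith [hre.1]

/-- an elementary divergent product -/
lemma prod_tendsto_zero (b : ℕ → ℝ) (hb : ∀ k, 0 ≤ b k)
    (hev : ∀ᶠ k : ℕ in atTop, b k ≤ 1 - 1 / (2 * k)) :
    Tendsto (fun n => ∏ k ∈ Finset.range n, b k) atTop (𝓝 0) := by
  rw [eventually_atTop] at hev
  obtain ⟨K, hK⟩ := hev
  set C := ∏ k ∈ Finset.range (K + 1), b k with hC
  have hC0 : 0 ≤ C := Finset.prod_nonneg fun k _ => hb k
  have hbound : ∀ n, ∏ k ∈ Finset.range (n + (K + 1)), b k ≤
      C * Real.exp (-(1 / 2) * ∑ i ∈ Finset.range n, (1 / ((i : ℝ) + (K + 1)))) := by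
    intro n
    induction n with
    | zero => simp [hC]
    | succ n ih =>
      rw [show n + 1 + (K + 1) = (n + (K + 1)) + 1 by ring, Finset.prod_range_succ,
        Finset.sum_range_succ, mul_add, Real.exp_add, ← mul_assoc]
      refine mul_le_mul ih ?_ (hb _) (mul_nonneg hC0 (Real.exp_pos _).le)
      refine (hK (n + (K + 1)) (by omega)).trans ?_
      have h1 := Real.add_one_le_exp (-(1 / 2) * (1 / ((n : ℝ) + (K + 1))))
      have h2 : (1 : ℝ) / (2 * ((n + (K + 1) : ℕ) : ℝ)) = (1 / 2) * (1 / ((n : ℝ) + (K + 1))) := by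
        push_cast; field_simp
      rw [h2]
      linarith
  have hdiv : Tendsto (fun n => ∑ i ∈ Finset.range n, (1 / ((i : ℝ) + (K + 1)))) atTop atTop := by
    have h1 := Real.tendsto_sum_range_one_div_nat_succ_atTop
    have h2 := (tendsto_add_atTop_iff_nat K).2 h1
    have h3 : ∀ n : ℕ, ∑ i ∈ Finset.range (n + K), (1 / ((i : ℝ) + 1)) =
        ∑ i ∈ Finset.range K, (1 / ((i : ℝ) + 1)) + ∑ i ∈ Finset.range n, (1 / ((i : ℝ) + (K + 1))) := by
      intro n
      rw [add_comm n K, Finset.sum_range_add]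
      congr 1
      refine Finset.sum_congr rfl fun i _ => ?_
      push_cast
      congr 1
      ring
    simp only [h3] at h2
    have h4 := tendsto_atTop_add_const_left _ (-(∑ i ∈ Finset.range K, (1 / ((i : ℝ) + 1)))) h2
    refine h4.congr fun n => ?_
    ring
  have h4 : Tendsto (fun n => C * Real.exp (-(1 / 2) * ∑ i ∈ Finset.range n, (1 / ((i : ℝ) + (K + 1)))))
      atTop (𝓝 0) := by
    have h5 : Tendsto (fun n => -(1 / 2 : ℝ) * ∑ i ∈ Finset.range n, (1 / ((i : ℝ) + (K + 1))))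
        atTop atBot := by
      have := hdiv.const_mul_atTop_of_neg (show (-(1 / 2) : ℝ) < 0 by norm_num)
      exact this
    have h6 := (Real.tendsto_exp_atBot.comp h5).const_mul C
    rw [mul_zero] at h6
    exact h6
  rw [← tendsto_add_atTop_iff_nat (K + 1)]
  refine squeeze_zero (fun n => Finset.prod_nonneg fun k _ => hb k) hbound h4

lemma hasDerivAt_iterate {g : ℂ → ℂ} {z : ℂ} (hd : ∀ k : ℕ, DifferentiableAt ℂ g (g^[k] z)) (n : ℕ) :
    HasDerivAt (g^[n]) (∏ k ∈ Finset.range n, deriv g (g^[k] z)) z := by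
  induction n with
  | zero => simpa using hasDerivAt_id z
  | succ n ih =>
    rw [Function.iterate_succ', Finset.prod_range_succ, mul_comm]
    exact HasDerivAt.comp z (hd n).hasDerivAt ih

lemma rho_bound (G : Germ m g h) (D : Dir m (h 0) κ v) {R : ℝ}
    (T : Thr m (h 0) κ v g R) {z : ℂ} (hz : z ∈ Pet m (h 0) κ v R) :
    ∀ᶠ k : ℕ in atTop, ‖deriv g (g^[k] z) * (g^[k] z) / g (g^[k] z)‖ ≤ 1 - 1 / (2 * k) := by
  have h1 := G.tendsto_rho.comp (orbit_tendsto_zero_ne G D T hz)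
  have h2 := W_asymp G D T hz
  have h3 := h1.div h2 one_ne_zero
  rw [div_one] at h3
  have h4 := (Metric.tendsto_nhds.1 h3) (1 / 2) (by norm_num)
  filter_upwards [h4, eventually_gt_atTop 0] with k hk hk0
  rw [dist_eq_norm] at hk
  set ρ := deriv g (g^[k] z) * (g^[k] z) / g (g^[k] z) with hρ
  replace hk : ‖Wc m (h 0) (g^[k] z) * (ρ - 1) / (Wc m (h 0) (g^[k] z) / k) - (-1)‖ < 1 / 2 := hk
  have hkC : (k : ℂ) ≠ 0 := by exact_mod_cast hk0.ne'
  have hkR : (0 : ℝ) < k := by exact_mod_cast hk0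
  have hW0 : Wc m (h 0) (g^[k] z) ≠ 0 := by
    intro h0
    have := (T.iter le_rfl hz k).1.1
    rw [h0] at this
    simp only [Complex.zero_re] at this
    linarith [T.1]
  have h5 : Wc m (h 0) (g^[k] z) * (ρ - 1) / (Wc m (h 0) (g^[k] z) / k) = k * (ρ - 1) := by
    field_simp
  rw [h5, sub_neg_eq_add] at hk
  have h6 : ρ = ((1 - 1 / (k : ℝ) : ℝ) : ℂ) + (k * (ρ - 1) + 1) / k := by
    push_cast
    field_simp
    ring
  have h7 : ‖ρ‖ ≤ |1 - 1 / (k : ℝ)| + ‖k * (ρ - 1) + 1‖ / k := by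
    nth_rewrite 1 [h6]
    refine (norm_add_le _ _).trans ?_
    rw [Complex.norm_real, norm_div, Complex.norm_natCast, Real.norm_eq_abs]
  have h8 : 1 / (k : ℝ) ≤ 1 := by
    rw [div_le_one hkR]
    exact_mod_cast hk0
  rw [abs_of_nonneg (by linarith)] at h7
  have h9 : ‖k * (ρ - 1) + 1‖ / k ≤ (1 / 2) / k := by
    gcongr
  have h10 : (1 / 2 : ℝ) / k = 1 / (2 * k) := by field_simp
  have h11 : (1 : ℝ) / k = 1 / (2 * k) + 1 / (2 * k) := by field_simp; norm_num
  linarith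

lemma deriv_ratio_tendsto (G : Germ m g h) (D : Dir m (h 0) κ v) {R : ℝ}
    (T : Thr m (h 0) κ v g R) {z : ℂ} (hz : z ∈ Pet m (h 0) κ v R)
    (hdiff : ∀ z ∈ Pet m (h 0) κ v R, DifferentiableAt ℂ g z) :
    Tendsto (fun n => ‖deriv (g^[n]) z‖ * ‖z‖ / ‖g^[n] z‖) atTop (𝓝 0) := by
  have h1 := prod_tendsto_zero _ (fun k => norm_nonneg _) (rho_bound G D T hz)
  refine h1.congr fun n => ?_
  have hd : ∀ k : ℕ, DifferentiableAt ℂ g (g^[k] z) := fun k => hdiff _ (T.iter le_rfl hz k).1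
  rw [(hasDerivAt_iterate hd n).deriv]
  induction n with
  | zero =>
    have : ‖z‖ ≠ 0 := norm_ne_zero_iff.2 (Pet_ne_zero D T.1.le hz)
    simp [this]
  | succ n ih =>
    have e0 : ‖g^[n] z‖ ≠ 0 := norm_ne_zero_iff.2 (Pet_ne_zero D T.1.le (T.iter le_rfl hz n).1)
    have e1 : ‖g^[n+1] z‖ ≠ 0 :=
      norm_ne_zero_iff.2 (Pet_ne_zero D T.1.le (T.iter le_rfl hz (n + 1)).1)
    rw [Finset.prod_range_succ, ih, Finset.prod_range_succ, norm_mul, norm_div, norm_mul,
      ← Function.iterate_succ_apply' g n z]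
    field_simp

end

end Pool.Agent.TH620B
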