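import Pool.Agent.TH620B.Cover
import Pool.Agent.TH620B.Orbit

set_option autoImplicit false

namespace Pool.Agent.TH620B

open Filter Topology Asymptotics Polynomial

noncomputable section

/-! ### a rational map of degree at least two has no iterate equal to the identity -/

lemma finite_fiber' {P Q : ℂ[X]} (hPQ : IsCoprime P Q)
    (hd : 1 ≤ max P.natDegree Q.natDegree) (w : ℂ) : (rat P Q ⁻¹' {w}).Finite := by
  have hQ0 : Q ≠ 0 := by
    rintro rfl
    have h1 : IsUnit P := isCoprime_zero_right.1 hPQ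
    have h2 := Polynomial.natDegree_eq_zero_of_isUnit h1
    rw [h2] at hd
    simp at hd
  have h1 : (P - C w * Q) ≠ 0 := by
    intro h0
    have hP : P = C w * Q := by rw [← sub_eq_zero]; exact h0
    obtain ⟨a, b, hab⟩ := hPQ
    have hu : IsUnit Q := by
      apply IsUnit.of_mul_eq_one (a * C w + b)
      calc Q * (a * C w + b) = a * (C w * Q) + b * Q := by ring
        _ = 1 := by rw [← hP]; exact hab
    have h2 := Polynomial.natDegree_eq_zero_of_isUnit hu
    have h3 : P.natDegree ≤ 0 := by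
      rw [hP]
      exact (Polynomial.natDegree_C_mul_le _ _).trans h2.le
    rw [h2] at hd
    simp at hd
    omega
  refine ((P - C w * Q).roots.toFinset.finite_toSet.union Q.roots.toFinset.finite_toSet).subset
    fun z hz => ?_
  have hz' : rat P Q z = w := hz
  by_cases hQ : Q.eval z = 0
  · right
    simp only [Finset.mem_coe, Multiset.mem_toFinset]
    rw [Polynomial.mem_roots hQ0]
    exact hQ
  · left
    simp only [Finset.mem_coe, Multiset.mem_toFinset]
    rw [Polynomial.mem_roots h1]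
    simp only [IsRoot.def, Polynomial.eval_sub, Polynomial.eval_mul, Polynomial.eval_C]
    rw [← hz', rat]
    field_simp
    ring

lemma finite_preimage_iter {P Q : ℂ[X]} (hPQ : IsCoprime P Q)
    (hd : 1 ≤ max P.natDegree Q.natDegree) (n : ℕ) (A : Set ℂ) (hA : A.Finite) :
    ((rat P Q)^[n] ⁻¹' A).Finite := by
  induction n generalizing A with
  | zero => simpa using hA
  | succ n ih =>
    rw [Function.iterate_succ', Set.preimage_comp]
    apply ih
    have : rat P Q ⁻¹' A = ⋃ w ∈ A, rat P Q ⁻¹' {w} := by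
      ext z; simp
    rw [this]
    exact hA.biUnion fun w _ => finite_fiber' hPQ hd w

lemma rat_zero {P Q : ℂ[X]} (hP0 : P.eval 0 = 0) : rat P Q 0 = 0 := by simp [rat, hP0]

lemma iter_zero {P Q : ℂ[X]} (hP0 : P.eval 0 = 0) (n : ℕ) : (rat P Q)^[n] 0 = 0 :=
  Function.iterate_fixed (rat_zero hP0) n

lemma Q_zero_ne {P Q : ℂ[X]} (hPQ : IsCoprime P Q) (hP0 : P.eval 0 = 0) : Q.eval 0 ≠ 0 :=
  fun h => no_common hPQ hP0 h

lemma two_preimages {P Q : ℂ[X]} (hPQ : IsCoprime P Q)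
    (hd : 2 ≤ max P.natDegree Q.natDegree) {w : ℂ} (hw : w ∈ reg P Q) :
    ∃ z₁ z₂, z₁ ≠ z₂ ∧ rat P Q z₁ = w ∧ rat P Q z₂ = w := by
  have hd1 : 1 ≤ max P.natDegree Q.natDegree := by omega
  set A := P - C w * Q with hA
  have hA0 : A ≠ 0 := by
    intro h0
    have := coeff_sub_ne hd1 hw.1 hw.2.1
    rw [← hA, h0] at this
    simp at this
  have hrat : ∀ z ∈ A.roots, rat P Q z = w := by
    intro z hz
    rw [Polynomial.mem_roots hA0] at hz
    simp only [hA, IsRoot.def, Polynomial.eval_sub, Polynomial.eval_mul, Polynomial.eval_C] at hz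
    have hQ : Q.eval z ≠ 0 := by
      intro h0
      rw [h0, mul_zero, sub_zero] at hz
      exact no_common hPQ hz h0
    rw [rat, div_eq_iff hQ]
    linear_combination hz
  have hnodup : A.roots.Nodup := by
    rw [Multiset.nodup_iff_count_le_one]
    intro z
    rw [Polynomial.count_roots]
    by_contra hcon
    push Not at hcon
    obtain ⟨h1, h2⟩ := (Polynomial.one_lt_rootMultiplicity_iff_isRoot hA0).1 hcon
    have hz : z ∈ A.roots := (Polynomial.mem_roots hA0).2 h1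
    have hr := hrat z hz
    apply hw.2.2 z _ hr
    simp only [hA, IsRoot.def, Polynomial.eval_sub, Polynomial.eval_mul, Polynomial.eval_C,
      Polynomial.derivative_sub, Polynomial.derivative_mul, Polynomial.derivative_C, zero_mul,
      zero_add] at h1 h2
    simp only [wr, Polynomial.eval_sub, Polynomial.eval_mul]
    linear_combination (eval z Q) * h2 - (eval z (derivative Q)) * h1
  have hcard : 1 < A.roots.toFinset.card := by
    rw [Multiset.toFinset_card_of_nodup hnodup, IsAlgClosed.card_roots_eq_natDegree, hA,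
      natDegree_sub_eq hd1 hw.1 hw.2.1]
    omega
  obtain ⟨z₁, h1, z₂, h2, hne⟩ := Finset.one_lt_card.1 hcard
  exact ⟨z₁, z₂, hne, hrat _ (Multiset.mem_toFinset.1 h1), hrat _ (Multiset.mem_toFinset.1 h2)⟩

lemma not_id {P Q : ℂ[X]} (hPQ : IsCoprime P Q)
    (hd : 2 ≤ max P.natDegree Q.natDegree) (hP0 : P.eval 0 = 0) (q : ℕ) (hq : 1 ≤ q) :
    ¬ ∀ᶠ z in 𝓝 (0 : ℂ), (rat P Q)^[q] z = z := by
  intro hid
  have hd1 : 1 ≤ max P.natDegree Q.natDegree := by omega
  have hQ0 : Q ≠ 0 := by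
    rintro rfl
    exact Q_zero_ne hPQ hP0 (by simp)
  set Z : Set ℂ := {z | ∃ j < q, Q.eval ((rat P Q)^[j] z) = 0} with hZ
  have hZfin : Z.Finite := by
    have : Z = ⋃ j ∈ Finset.range q, ((rat P Q)^[j] ⁻¹' {z | Q.eval z = 0}) := by
      ext z; simp [hZ]
    rw [this]
    refine Set.Finite.biUnion (Finset.finite_toSet _) fun j _ => ?_
    apply finite_preimage_iter hPQ hd1
    refine Q.roots.toFinset.finite_toSet.subset fun z hz => ?_
    simp only [Finset.mem_coe, Multiset.mem_toFinset]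
    exact (Polynomial.mem_roots hQ0).2 hz
  have hpre : IsPreconnected Zᶜ :=
    (hZfin.countable.isConnected_compl_of_one_lt_rank (by
      rw [Complex.rank_real_complex]; exact Nat.one_lt_ofNat)).isPreconnected
  have hopen : IsOpen Zᶜ := hZfin.isClosed.isOpen_compl
  have h0 : (0 : ℂ) ∈ Zᶜ := by
    rintro ⟨j, _, hj⟩
    rw [iter_zero hP0] at hj
    exact Q_zero_ne hPQ hP0 hj
  have hdiff : ∀ n ≤ q, DifferentiableOn ℂ ((rat P Q)^[n]) Zᶜ := by
    intro n
    induction n with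
    | zero => intro _; exact differentiableOn_id
    | succ n ih =>
      intro hn z hz
      rw [Function.iterate_succ']
      have h1 : DifferentiableAt ℂ ((rat P Q)^[n]) z :=
        (ih (by omega) z hz).differentiableAt (hopen.mem_nhds hz)
      have h2 : Q.eval ((rat P Q)^[n] z) ≠ 0 := fun h => hz ⟨n, by omega, h⟩
      exact ((hasStrictDerivAt_rat h2).hasDerivAt.differentiableAt.comp z h1).differentiableWithinAt
  have hana := (hdiff q le_rfl).analyticOnNhd hopen
  have hEq := hana.eqOn_of_preconnected_of_eventuallyEq (analyticOnNhd_id) hpre h0 hid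
  have hfin : ((reg P Q)ᶜ ∪ rat P Q '' Z).Finite :=
    (finite_reg_compl hPQ hd1).union (hZfin.image _)
  obtain ⟨w, hw⟩ := hfin.infinite_compl.nonempty
  rw [Set.compl_union, compl_compl] at hw
  obtain ⟨z₁, z₂, hne, h1, h2⟩ := two_preimages hPQ hd hw.1
  have hz1 : z₁ ∈ Zᶜ := fun h => hw.2 ⟨z₁, h, h1⟩
  have hz2 : z₂ ∈ Zᶜ := fun h => hw.2 ⟨z₂, h, h2⟩
  apply hne
  obtain ⟨q', rfl⟩ : ∃ q', q = q' + 1 := ⟨q - 1, by omega⟩
  have e1 : (rat P Q)^[q' + 1] z₁ = z₁ := hEq hz1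
  have e2 : (rat P Q)^[q' + 1] z₂ = z₂ := hEq hz2
  rw [Function.iterate_succ_apply, h1] at e1
  rw [Function.iterate_succ_apply, h2] at e2
  rw [← e1, ← e2]

/-! ### basins -/

/-- the points whose `f^q`-orbit converges to `0` in the direction `v` -/
def Bas (f : ℂ → ℂ) (q : ℕ) (v : ℂ) : Set ℂ :=
  {z | (∀ n, f^[n] z ≠ 0) ∧ Tendsto (fun n => f^[q * n] z) atTop (𝓝 0) ∧
    Tendsto (fun n => f^[q * n] z / ‖f^[q * n] z‖) atTop (𝓝 v)}

lemma Bas_unique {f : ℂ → ℂ} {q : ℕ} {v w z : ℂ} (h1 : z ∈ Bas f q v) (h2 : z ∈ Bas f q w) : v = w :=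
  tendsto_nhds_unique h1.2.2 h2.2.2

lemma Bas_forward {f : ℂ → ℂ} {q : ℕ} {v lam z : ℂ} (hf : HasDerivAt f lam 0) (hf0 : f 0 = 0)
    (hlam : ‖lam‖ = 1) (hz : z ∈ Bas f q v) : f z ∈ Bas f q (lam * v) := by
  have hcomm : ∀ n, f^[n] (f z) = f (f^[n] z) := fun n => by
    rw [← Function.iterate_succ_apply, Function.iterate_succ_apply']
  have h1 : Tendsto (fun n => f^[q * n] z) atTop (𝓝[≠] 0) := by
    rw [tendsto_nhdsWithin_iff]
    exact ⟨hz.2.1, Eventually.of_forall fun n => hz.1 _⟩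
  have hs := hasDerivAt_iff_tendsto_slope_zero.1 hf
  have h2 : Tendsto (fun n => f (f^[q * n] z) / f^[q * n] z) atTop (𝓝 lam) := by
    refine (hs.comp h1).congr fun n => ?_
    simp only [Function.comp_apply, zero_add, hf0, sub_zero, smul_eq_mul]
    rw [div_eq_inv_mul]
  refine ⟨fun n => ?_, ?_, ?_⟩
  · rw [← Function.iterate_succ_apply]
    exact hz.1 _
  · simp only [hcomm]
    have := hf.continuousAt.tendsto.comp hz.2.1
    rw [hf0] at this
    exact this
  · simp only [hcomm]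
    have h3 : Tendsto (fun n => (f (f^[q * n] z) / f^[q * n] z) /
        ((‖f (f^[q * n] z) / f^[q * n] z‖ : ℝ) : ℂ) * (f^[q * n] z / ‖f^[q * n] z‖)) atTop
        (𝓝 (lam / ((‖lam‖ : ℝ) : ℂ) * v)) := by
      refine Tendsto.mul (h2.div ?_ ?_) hz.2.2
      · exact (Complex.continuous_ofReal.tendsto _).comp h2.norm
      · rw [hlam]; simp
    rw [hlam, Complex.ofReal_one, div_one] at h3
    refine h3.congr fun n => ?_
    have e1 : f^[q * n] z ≠ 0 := hz.1 _
    have e2 : f (f^[q * n] z) ≠ 0 := by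
      rw [← Function.iterate_succ_apply' f]
      exact hz.1 _
    have e3 : ((‖f^[q * n] z‖ : ℝ) : ℂ) ≠ 0 := by exact_mod_cast norm_ne_zero_iff.2 e1
    have e4 : ((‖f (f^[q * n] z)‖ : ℝ) : ℂ) ≠ 0 := by exact_mod_cast norm_ne_zero_iff.2 e2
    rw [norm_div]
    push_cast
    field_simp

lemma Bas_forward_iter {f : ℂ → ℂ} {q : ℕ} {v lam z : ℂ} (hf : HasDerivAt f lam 0) (hf0 : f 0 = 0)
    (hlam : ‖lam‖ = 1) (hz : z ∈ Bas f q v) (n : ℕ) : f^[n] z ∈ Bas f q (lam ^ n * v) := by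
  induction n with
  | zero => simpa using hz
  | succ n ih =>
    rw [Function.iterate_succ_apply', pow_succ', mul_assoc]
    exact Bas_forward hf hf0 hlam ih

lemma Bas_shift {f : ℂ → ℂ} {q : ℕ} {v z : ℂ} (hf0 : f 0 = 0)
    (hz : f^[q] z ∈ Bas f q v) : z ∈ Bas f q v := by
  have e : ∀ n, f^[q * n] (f^[q] z) = f^[q * (n + 1)] z := fun n => by
    rw [← Function.iterate_add_apply]; rfl
  refine ⟨fun n h0 => ?_, ?_, ?_⟩
  · apply hz.1 n
    rw [← Function.iterate_add_apply, add_comm, Function.iterate_add_apply, h0,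
      Function.iterate_fixed hf0]
  · have := hz.2.1
    simp only [e] at this
    exact (tendsto_add_atTop_iff_nat (f := fun n => f^[q * n] z) 1).1 this
  · have := hz.2.2
    simp only [e] at this
    exact (tendsto_add_atTop_iff_nat (f := fun n => f^[q * n] z / ‖f^[q * n] z‖) 1).1 this

/-- the union of the basins of the `f`-cycle of directions of `v` -/
def Sb (f : ℂ → ℂ) (q : ℕ) (lam v : ℂ) : Set ℂ := {z | ∃ j : ℕ, z ∈ Bas f q (lam ^ j * v)}

lemma Sb_forward {f : ℂ → ℂ} {q : ℕ} {v lam z : ℂ} (hf : HasDerivAt f lam 0) (hf0 : f 0 = 0)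
    (hlam : ‖lam‖ = 1) (hz : z ∈ Sb f q lam v) : f z ∈ Sb f q lam v := by
  obtain ⟨j, hj⟩ := hz
  refine ⟨j + 1, ?_⟩
  rw [pow_succ', mul_assoc]
  exact Bas_forward hf hf0 hlam hj

lemma Sb_forward_iter {f : ℂ → ℂ} {q : ℕ} {v lam z : ℂ} (hf : HasDerivAt f lam 0) (hf0 : f 0 = 0)
    (hlam : ‖lam‖ = 1) (hz : z ∈ Sb f q lam v) (n : ℕ) : f^[n] z ∈ Sb f q lam v := by
  induction n with
  | zero => exact hz
  | succ n ih =>
    rw [Function.iterate_succ_apply']
    exact Sb_forward hf hf0 hlam ih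

lemma Sb_back {f : ℂ → ℂ} {q : ℕ} {v lam z : ℂ} (hf : HasDerivAt f lam 0) (hf0 : f 0 = 0)
    (hlam : ‖lam‖ = 1) (hq : 1 ≤ q) (hz : f z ∈ Sb f q lam v) : z ∈ Sb f q lam v := by
  obtain ⟨j, hj⟩ := hz
  obtain ⟨q', rfl⟩ : ∃ q', q = q' + 1 := ⟨q - 1, by omega⟩
  refine ⟨q' + j, Bas_shift hf0 ?_⟩
  rw [Function.iterate_succ_apply, pow_add, mul_assoc]
  exact Bas_forward_iter hf hf0 hlam hj q'

lemma Sb_ne_zero {f : ℂ → ℂ} {q : ℕ} {v lam z : ℂ} (hz : z ∈ Sb f q lam v) : z ≠ 0 := by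
  obtain ⟨j, hj⟩ := hz
  exact hj.1 0

end

end Pool.Agent.TH620B
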