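import Mathlib

set_option autoImplicit false

namespace Pool.Agent.TH620B

open Filter Topology Asymptotics Polynomial Bornology

noncomputable section

/-- the rational map `P/Q`, junk value `0` at the poles -/
def rat (P Q : ℂ[X]) (w : ℂ) : ℂ := P.eval w / Q.eval w

/-- numerator of the derivative -/
def wr (P Q : ℂ[X]) : ℂ[X] := derivative P * Q - P * derivative Q

/-- the set of regular values (also excluding `0` and the value at infinity) -/
def reg (P Q : ℂ[X]) : Set ℂ :=
  {w | w ≠ 0 ∧ w ≠ P.coeff (max P.natDegree Q.natDegree) / Q.coeff (max P.natDegree Q.natDegree) ∧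
    ∀ z, (wr P Q).eval z = 0 → rat P Q z ≠ w}

lemma Q_ne_of_ne {P Q : ℂ[X]} {z : ℂ} (h : rat P Q z ≠ 0) : Q.eval z ≠ 0 := by
  intro h0
  apply h
  simp [rat, h0]

lemma wr_ne_zero {P Q : ℂ[X]} (hPQ : IsCoprime P Q) (hd : 1 ≤ max P.natDegree Q.natDegree) :
    wr P Q ≠ 0 := by
  intro h
  have h1 : Polynomial.wronskian P Q = 0 := by
    have : Polynomial.wronskian P Q = - wr P Q := by
      unfold Polynomial.wronskian wr; ring
    rw [this, h, neg_zero]
  have h2 := hPQ.wronskian_eq_zero_iff.1 h1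
  have hP := Polynomial.derivative_eq_zero.1 h2.1
  have hQ := Polynomial.derivative_eq_zero.1 h2.2
  rw [hP, hQ] at hd
  simp at hd

lemma wr_natDegree {P Q : ℂ[X]} (hd : 1 ≤ max P.natDegree Q.natDegree) :
    (wr P Q).natDegree ≤ 2 * max P.natDegree Q.natDegree - 1 := by
  unfold wr
  refine (Polynomial.natDegree_sub_le _ _).trans (max_le ?_ ?_)
  · refine (Polynomial.natDegree_mul_le).trans ?_
    have := Polynomial.natDegree_derivative_le P
    have h1 := le_max_left P.natDegree Q.natDegree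
    have h2 := le_max_right P.natDegree Q.natDegree
    omega
  · refine (Polynomial.natDegree_mul_le).trans ?_
    have := Polynomial.natDegree_derivative_le Q
    have h1 := le_max_left P.natDegree Q.natDegree
    have h2 := le_max_right P.natDegree Q.natDegree
    omega

lemma hasStrictDerivAt_rat {P Q : ℂ[X]} {z : ℂ} (h : Q.eval z ≠ 0) :
    HasStrictDerivAt (rat P Q) ((wr P Q).eval z / (Q.eval z) ^ 2) z := by
  have := (P.hasStrictDerivAt z).div (Q.hasStrictDerivAt z) h
  have e : (wr P Q).eval z = eval z (derivative P) * eval z Q - eval z P * eval z (derivative Q) := by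
    simp [wr]
  rw [e]
  exact this

/-- coprimality: no common root -/
lemma no_common {P Q : ℂ[X]} (hPQ : IsCoprime P Q) {z : ℂ} (hP : P.eval z = 0)
    (hQ : Q.eval z = 0) : False := by
  obtain ⟨a, b, hab⟩ := hPQ
  have := congrArg (Polynomial.eval z) hab
  simp [hP, hQ] at this

lemma coeff_or {P Q : ℂ[X]} (hd : 1 ≤ max P.natDegree Q.natDegree) :
    P.coeff (max P.natDegree Q.natDegree) ≠ 0 ∨ Q.coeff (max P.natDegree Q.natDegree) ≠ 0 := by
  rcases le_total P.natDegree Q.natDegree with h | h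
  · right
    rw [max_eq_right h] at hd ⊢
    intro h0
    have : Q = 0 := Polynomial.leadingCoeff_eq_zero.1 h0
    rw [this] at hd
    simp at hd
  · left
    rw [max_eq_left h] at hd ⊢
    intro h0
    have : P = 0 := Polynomial.leadingCoeff_eq_zero.1 h0
    rw [this] at hd
    simp at hd

/-- the polynomial `P - w Q` has degree exactly `d` for `w` not the value at infinity -/
lemma coeff_sub_ne {P Q : ℂ[X]} (hd : 1 ≤ max P.natDegree Q.natDegree) {w : ℂ} (hw : w ≠ 0)
    (h : w ≠ P.coeff (max P.natDegree Q.natDegree) / Q.coeff (max P.natDegree Q.natDegree)) :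
    (P - C w * Q).coeff (max P.natDegree Q.natDegree) ≠ 0 := by
  rw [Polynomial.coeff_sub, Polynomial.coeff_C_mul]
  intro h0
  by_cases hq : Q.coeff (max P.natDegree Q.natDegree) = 0
  · rw [hq, mul_zero, sub_zero] at h0
    rcases coeff_or hd with h1 | h1
    · exact h1 h0
    · exact h1 hq
  · apply h
    field_simp
    linear_combination -h0

lemma natDegree_sub_eq {P Q : ℂ[X]} (hd : 1 ≤ max P.natDegree Q.natDegree) {w : ℂ} (hw : w ≠ 0)
    (h : w ≠ P.coeff (max P.natDegree Q.natDegree) / Q.coeff (max P.natDegree Q.natDegree)) :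
    (P - C w * Q).natDegree = max P.natDegree Q.natDegree := by
  apply le_antisymm
  · refine (Polynomial.natDegree_sub_le _ _).trans (max_le (le_max_left _ _) ?_)
    exact (Polynomial.natDegree_C_mul_le _ _).trans (le_max_right _ _)
  · exact Polynomial.le_natDegree_of_ne_zero (coeff_sub_ne hd hw h)

/-- a neighbourhood of a value different from the value at infinity has bounded preimage -/
lemma bdd_preimage {P Q : ℂ[X]} (hd : 1 ≤ max P.natDegree Q.natDegree) {w : ℂ} (hw : w ≠ 0)
    (h : w ≠ P.coeff (max P.natDegree Q.natDegree) / Q.coeff (max P.natDegree Q.natDegree)) :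
    ∃ R δ : ℝ, 0 < δ ∧ ∀ z : ℂ, Q.eval z ≠ 0 → ‖rat P Q z - w‖ < δ → ‖z‖ ≤ R := by
  have hdeg : Q.degree ≤ (P - C w * Q).degree := by
    have h1 : (P - C w * Q) ≠ 0 := by
      intro h0
      have := coeff_sub_ne hd hw h
      rw [h0] at this
      simp at this
    rw [Polynomial.degree_eq_natDegree h1, natDegree_sub_eq hd hw h]
    exact (Polynomial.degree_le_natDegree).trans (by exact_mod_cast le_max_right _ _)
  have hO := Polynomial.isBigO_cobounded_of_degree_le hdeg
  obtain ⟨c, hc, hO⟩ := hO.exists_pos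
  rw [IsBigOWith] at hO
  rw [← comap_norm_atTop, Filter.eventually_comap, Filter.eventually_atTop] at hO
  obtain ⟨R, hR⟩ := hO
  refine ⟨R, 1 / c, by positivity, fun z hz hlt => ?_⟩
  by_contra hcon
  push Not at hcon
  have h1 := hR ‖z‖ hcon.le z rfl
  have h2 : (P - C w * Q).eval z = (rat P Q z - w) * Q.eval z := by
    simp only [rat, Polynomial.eval_sub, Polynomial.eval_mul, Polynomial.eval_C]
    field_simp
  rw [h2, norm_mul] at h1
  have hQ : 0 < ‖Q.eval z‖ := norm_pos_iff.2 hz
  have h3 : c * (‖rat P Q z - w‖ * ‖Q.eval z‖) < ‖Q.eval z‖ := by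
    calc c * (‖rat P Q z - w‖ * ‖Q.eval z‖) = (c * ‖rat P Q z - w‖) * ‖Q.eval z‖ := by ring
      _ < (c * (1 / c)) * ‖Q.eval z‖ := by
          apply mul_lt_mul_of_pos_right _ hQ
          exact mul_lt_mul_of_pos_left hlt hc
      _ = ‖Q.eval z‖ := by field_simp
  linarith

lemma isCompact_preimage {P Q : ℂ[X]} (hPQ : IsCoprime P Q)
    (hd : 1 ≤ max P.natDegree Q.natDegree) {K : Set ℂ} (hK : IsCompact K)
    (hKr : K ⊆ reg P Q) : IsCompact (rat P Q ⁻¹' K) := by
  apply IsSeqCompact.isCompact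
  intro z hz
  obtain ⟨w, hwK, φ, hφ, hlim⟩ := hK.tendsto_subseq hz
  have hw := hKr hwK
  obtain ⟨R, δ, hδ, hb⟩ := bdd_preimage (P := P) (Q := Q) hd hw.1 hw.2.1
  have hev : ∀ᶠ n in atTop, z (φ n) ∈ Metric.closedBall (0 : ℂ) R := by
    have := (Metric.tendsto_nhds.1 hlim) δ hδ
    filter_upwards [this] with n hn
    rw [mem_closedBall_zero_iff]
    apply hb
    · exact Q_ne_of_ne (hKr (hz (φ n))).1
    · rw [dist_eq_norm] at hn; exact hn
  obtain ⟨x, hx, ψ, hψ, hlim2⟩ := (isCompact_closedBall (0 : ℂ) R).tendsto_subseq' hev.frequently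
  have hPx : P.eval x = w * Q.eval x := by
    have h1 : Tendsto (fun n => P.eval (z (φ (ψ n)))) atTop (𝓝 (P.eval x)) :=
      (P.continuous.tendsto x).comp hlim2
    have h2 : Tendsto (fun n => rat P Q (z (φ (ψ n))) * Q.eval (z (φ (ψ n)))) atTop
        (𝓝 (w * Q.eval x)) :=
      (hlim.comp hψ.tendsto_atTop).mul ((Q.continuous.tendsto x).comp hlim2)
    refine tendsto_nhds_unique h1 (h2.congr fun n => ?_)
    have : Q.eval (z (φ (ψ n))) ≠ 0 := Q_ne_of_ne (hKr (hz (φ (ψ n)))).1
    simp only [rat]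
    field_simp
  have hQx : Q.eval x ≠ 0 := by
    intro h0
    rw [h0, mul_zero] at hPx
    exact no_common hPQ hPx h0
  refine ⟨x, ?_, φ ∘ ψ, hφ.comp hψ, hlim2⟩
  have : rat P Q x = w := by
    rw [rat, hPx]; field_simp
  rw [Set.mem_preimage, this]
  exact hwK

lemma finite_crit {P Q : ℂ[X]} (hPQ : IsCoprime P Q)
    (hd : 1 ≤ max P.natDegree Q.natDegree) : {z | (wr P Q).eval z = 0}.Finite := by
  have := (wr P Q).roots.toFinset.finite_toSet
  refine this.subset fun z hz => ?_
  simp only [Finset.mem_coe, Multiset.mem_toFinset]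
  exact (Polynomial.mem_roots (wr_ne_zero hPQ hd)).2 hz

lemma finite_reg_compl {P Q : ℂ[X]} (hPQ : IsCoprime P Q)
    (hd : 1 ≤ max P.natDegree Q.natDegree) : (reg P Q)ᶜ.Finite := by
  have : (reg P Q)ᶜ ⊆ {0} ∪ {P.coeff (max P.natDegree Q.natDegree) / Q.coeff (max P.natDegree Q.natDegree)}
      ∪ rat P Q '' {z | (wr P Q).eval z = 0} := by
    intro w hw
    simp only [reg, Set.mem_compl_iff, Set.mem_ofPred_eq, not_and, not_forall] at hw
    by_cases h0 : w = 0
    · left; left; exact h0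
    by_cases h1 : w = P.coeff (max P.natDegree Q.natDegree) / Q.coeff (max P.natDegree Q.natDegree)
    · left; right; exact h1
    right
    obtain ⟨z, hz, hz2⟩ := hw h0 h1
    exact ⟨z, hz, not_not.1 hz2⟩
  exact (((Set.finite_singleton _).union (Set.finite_singleton _)).union
    ((finite_crit hPQ hd).image _)).subset this

lemma isOpen_reg {P Q : ℂ[X]} (hPQ : IsCoprime P Q)
    (hd : 1 ≤ max P.natDegree Q.natDegree) : IsOpen (reg P Q) := by
  have := (finite_reg_compl hPQ hd).isClosed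
  simpa using this.isOpen_compl

lemma isOpen_preimage_reg {P Q : ℂ[X]} (hPQ : IsCoprime P Q)
    (hd : 1 ≤ max P.natDegree Q.natDegree) : IsOpen (rat P Q ⁻¹' reg P Q) := by
  rw [isOpen_iff_mem_nhds]
  intro z hz
  have hQ : Q.eval z ≠ 0 := Q_ne_of_ne hz.1
  exact (hasStrictDerivAt_rat hQ).hasDerivAt.continuousAt ((isOpen_reg hPQ hd).mem_nhds hz)

lemma finite_fiber {P Q : ℂ[X]}
    (hd : 1 ≤ max P.natDegree Q.natDegree) (w : ℂ) (hw : w ∈ reg P Q) :
    (rat P Q ⁻¹' {w}).Finite := by
  have h1 : (P - C w * Q) ≠ 0 := by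
    intro h0
    have := coeff_sub_ne hd hw.1 hw.2.1
    rw [h0] at this
    simp at this
  refine (P - C w * Q).roots.toFinset.finite_toSet.subset fun z hz => ?_
  simp only [Finset.mem_coe, Multiset.mem_toFinset]
  rw [Polynomial.mem_roots h1]
  have hz' : rat P Q z = w := hz
  have hQ : Q.eval z ≠ 0 := Q_ne_of_ne (by rw [hz']; exact hw.1)
  simp only [IsRoot.def, Polynomial.eval_sub, Polynomial.eval_mul, Polynomial.eval_C]
  rw [← hz', rat]
  field_simp
  ring

/-- **rational maps are coverings over their regular values** -/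
theorem isCoveringMapOn_rat {P Q : ℂ[X]} (hPQ : IsCoprime P Q)
    (hd : 1 ≤ max P.natDegree Q.natDegree) : IsCoveringMapOn (rat P Q) (reg P Q) := by
  refine IsCoveringMapOn.of_isCoveringMap_restrictPreimage _ (isOpen_reg hPQ hd)
    (isOpen_preimage_reg hPQ hd) ?_
  have hcont : Continuous ((reg P Q).restrictPreimage (rat P Q)) := by
    rw [continuous_iff_continuousAt]
    rintro ⟨z, hz⟩
    exact ((hasStrictDerivAt_rat (Q_ne_of_ne hz.1)).hasDerivAt.continuousAt).restrictPreimage
  have : LocallyCompactSpace (reg P Q) := (isOpen_reg hPQ hd).locallyCompactSpace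
  have hprop : IsProperMap ((reg P Q).restrictPreimage (rat P Q)) := by
    rw [isProperMap_iff_isCompact_preimage]
    refine ⟨hcont, fun K hK => ?_⟩
    have hK' : IsCompact ((Subtype.val : reg P Q → ℂ) '' K) := hK.image continuous_subtype_val
    have h1 := isCompact_preimage hPQ hd hK' (by rintro _ ⟨y, _, rfl⟩; exact y.2)
    rw [Topology.IsInducing.subtypeVal.isCompact_iff]
    convert h1 using 1
    ext z
    constructor
    · rintro ⟨⟨z, hz⟩, hz2, rfl⟩
      exact ⟨_, hz2, rfl⟩
    · rintro ⟨⟨y, hy⟩, hyK, hyz⟩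
      have hyz' : y = rat P Q z := hyz
      subst hyz'
      exact ⟨⟨z, hy⟩, hyK, rfl⟩
  rw [isCoveringMap_iff_isCoveringMapOn_univ]
  refine hprop.isClosedMap.isCoveringMapOn_of_isLocalHomeomorphOn ?_ ?_
  · rintro ⟨w, hw⟩ _
    have h1 := finite_fiber hd w hw
    refine Set.Finite.of_finite_image (f := Subtype.val) (h1.subset ?_) Subtype.val_injective.injOn
    rintro _ ⟨⟨z, hz⟩, hz2, rfl⟩
    exact congrArg Subtype.val hz2
  · have hloc : IsLocalHomeomorphOn (rat P Q) (rat P Q ⁻¹' reg P Q) := by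
      intro z hz
      have hQ : Q.eval z ≠ 0 := Q_ne_of_ne hz.1
      have hw : (wr P Q).eval z / (Q.eval z) ^ 2 ≠ 0 := by
        apply div_ne_zero _ (pow_ne_zero _ hQ)
        intro h0
        exact hz.2.2 z h0 rfl
      exact ⟨_, ((hasStrictDerivAt_rat hQ).hasStrictFDerivAt_equiv
        hw).mem_toOpenPartialHomeomorph_source, by simp⟩
    rw [Set.preimage_univ]
    rw [← isLocalHomeomorph_iff_isLocalHomeomorphOn_univ]
    have hval : IsLocalHomeomorph (Subtype.val : reg P Q → ℂ) :=
      (isOpen_reg hPQ hd).isOpenEmbedding_subtypeVal.isLocalHomeomorph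
    have hval2 : IsLocalHomeomorph (Subtype.val : (rat P Q ⁻¹' reg P Q) → ℂ) :=
      (isOpen_preimage_reg hPQ hd).isOpenEmbedding_subtypeVal.isLocalHomeomorph
    refine IsLocalHomeomorph.of_comp ?_ hval hcont
    have h3 : IsLocalHomeomorphOn (rat P Q ∘ (Subtype.val : (rat P Q ⁻¹' reg P Q) → ℂ)) Set.univ :=
      hloc.comp (isLocalHomeomorph_iff_isLocalHomeomorphOn_univ.1 hval2) (fun x _ => x.2)
    rw [← isLocalHomeomorph_iff_isLocalHomeomorphOn_univ] at h3
    exact h3

/-- one step of lifting a map on a disk through the rational map -/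
lemma lift_step {P Q : ℂ[X]} (hPQ : IsCoprime P Q)
    (hd : 1 ≤ max P.natDegree Q.natDegree) (c : ℂ) (r : ℝ) (hr : 0 < r) (φ : ℂ → ℂ)
    (hφ : ContinuousOn φ (Metric.ball c r)) (hreg : ∀ x ∈ Metric.ball c r, φ x ∈ reg P Q)
    (e : ℂ) (he : rat P Q e = φ c) :
    ∃ ψ : ℂ → ℂ, ContinuousOn ψ (Metric.ball c r) ∧
      (∀ x ∈ Metric.ball c r, rat P Q (ψ x) = φ x) ∧ ψ c = e := by
  have : ContractibleSpace (Metric.ball c r) :=
    (convex_ball c r).contractibleSpace ⟨c, Metric.mem_ball_self hr⟩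
  have : LocallyPathConnectedSpace (Metric.ball c r) :=
    (Metric.isOpen_ball).locallyPathConnectedSpace
  obtain ⟨F, ⟨hF1, hF2⟩, _⟩ := (isCoveringMapOn_rat hPQ hd).existsUnique_continuousMap_lifts
    (A := Metric.ball c r) ⟨(Metric.ball c r).domRestrict φ, hφ.domRestrict⟩
    (a₀ := ⟨c, Metric.mem_ball_self hr⟩) (e₀ := e) he (fun a => hreg a a.2)
  classical
  refine ⟨fun x => if hx : x ∈ Metric.ball c r then F ⟨x, hx⟩ else 0, ?_, ?_, ?_⟩
  · rw [continuousOn_iff_continuous_domRestrict]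
    refine F.continuous.congr fun x => ?_
    obtain ⟨x, hx⟩ := x
    simp only [Set.domRestrict_apply, hx, dif_pos]
  · intro x hx
    simp only [hx, dif_pos]
    exact congrFun hF2 ⟨x, hx⟩
  · simp [Metric.mem_ball_self hr, hF1]

end

end Pool.Agent.TH620B
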