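import Mathlib

set_option autoImplicit false

namespace Pool.Agent.TH620B

open Filter Topology Asymptotics

noncomputable section

/-- the approximate Fatou coordinate `-1/(m a z^m)` -/
def Wc (m : ℕ) (a : ℂ) (z : ℂ) : ℂ := -1 / (m * a * z ^ m)

/-- parametrization of the sector of `v` by the right half plane -/
def Psi (m : ℕ) (κ : ℝ) (v ζ : ℂ) : ℂ := v * Complex.exp (-Complex.log (ζ / κ) / m)

/-- data of the local normal form -/
structure Germ (m : ℕ) (g h : ℂ → ℂ) : Prop where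
  hm : 1 ≤ m
  hh : AnalyticAt ℂ h 0
  h0 : h 0 ≠ 0
  hg : ∀ᶠ z in 𝓝 (0 : ℂ), g z = z + z ^ (m + 1) * h z

variable {m : ℕ} {g h : ℂ → ℂ}

lemma Germ.tendsto_h (G : Germ m g h) : Tendsto h (𝓝[≠] 0) (𝓝 (h 0)) :=
  G.hh.continuousAt.tendsto.mono_left nhdsWithin_le_nhds

lemma tendsto_pow0 {m : ℕ} (hm : 1 ≤ m) : Tendsto (fun z : ℂ => z ^ m) (𝓝[≠] 0) (𝓝 0) := by
  have : Tendsto (fun z : ℂ => z ^ m) (𝓝 0) (𝓝 (0 ^ m)) := (continuous_pow m).tendsto 0
  rw [zero_pow (by omega)] at this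
  exact this.mono_left nhdsWithin_le_nhds

lemma Germ.tendsto_u (G : Germ m g h) :
    Tendsto (fun z => z ^ m * h z) (𝓝[≠] 0) (𝓝 0) := by
  simpa using (tendsto_pow0 G.hm).mul G.tendsto_h

lemma Germ.ev_ne (G : Germ m g h) : ∀ᶠ z in 𝓝[≠] (0 : ℂ), h z ≠ 0 :=
  G.tendsto_h.eventually_ne G.h0

lemma Germ.ev_one (G : Germ m g h) : ∀ᶠ z in 𝓝[≠] (0 : ℂ), 1 + z ^ m * h z ≠ 0 := by
  have : Tendsto (fun z => 1 + z ^ m * h z) (𝓝[≠] 0) (𝓝 (1 + 0)) := G.tendsto_u.const_add 1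
  exact this.eventually_ne (by norm_num)

lemma Germ.ev_g (G : Germ m g h) : ∀ᶠ z in 𝓝[≠] (0 : ℂ), g z = z * (1 + z ^ m * h z) := by
  filter_upwards [G.hg.filter_mono nhdsWithin_le_nhds] with z hz
  rw [hz]; ring

lemma ev_ne0 : ∀ᶠ z in 𝓝[≠] (0 : ℂ), z ≠ 0 := eventually_mem_nhdsWithin

lemma Germ.tendsto_ratio (G : Germ m g h) : Tendsto (fun z => g z / z) (𝓝[≠] 0) (𝓝 1) := by
  have h1 : Tendsto (fun z => 1 + z ^ m * h z) (𝓝[≠] 0) (𝓝 (1 + 0)) := G.tendsto_u.const_add 1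
  rw [add_zero] at h1
  refine h1.congr' ?_
  filter_upwards [G.ev_g, ev_ne0] with z hz hz0
  rw [hz]; field_simp

lemma Germ.tendsto_W (G : Germ m g h) :
    Tendsto (fun z => Wc m (h 0) (g z) - Wc m (h 0) z) (𝓝[≠] 0) (𝓝 1) := by
  have hm := G.hm
  have hmC : (m : ℂ) ≠ 0 := by exact_mod_cast (by omega : m ≠ 0)
  have hs : HasDerivAt (fun u : ℂ => ((1 + u) ^ m)⁻¹) (-(m : ℂ)) 0 := by
    have h1 : HasDerivAt (fun u : ℂ => 1 + u) 1 0 := (hasDerivAt_id 0).const_add 1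
    have h2 := (h1.pow m).inv (by simp)
    have e : -(m : ℂ) = -(m * (1 + 0) ^ (m - 1) * 1) / ((1 + 0) ^ m) ^ 2 := by
      rw [add_zero, one_pow, one_pow]; ring
    rw [e]
    exact h2
  rw [hasDerivAt_iff_tendsto_slope_zero] at hs
  have hu : Tendsto (fun z => z ^ m * h z) (𝓝[≠] 0) (𝓝[≠] 0) := by
    rw [tendsto_nhdsWithin_iff]
    refine ⟨G.tendsto_u, ?_⟩
    filter_upwards [G.ev_ne, ev_ne0] with z hz hz0
    exact mul_ne_zero (pow_ne_zero _ hz0) hz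
  have h3 := (hs.comp hu).mul (G.tendsto_h.const_mul (-1 / (m * h 0)))
  have h4 : -(m : ℂ) * (-1 / (m * h 0) * h 0) = 1 := by
    have := G.h0
    field_simp
  rw [h4] at h3
  refine h3.congr' ?_
  filter_upwards [G.ev_ne, ev_ne0, G.ev_g, G.ev_one] with z hz hz0 hgz h1
  have h00 := G.h0
  simp only [Function.comp_apply, zero_add, add_zero, one_pow, inv_one, smul_eq_mul, Wc]
  rw [hgz, mul_pow]
  have hzm : z ^ m ≠ 0 := pow_ne_zero _ hz0
  have h1m : (1 + z ^ m * h z) ^ m ≠ 0 := pow_ne_zero _ h1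
  field_simp
  ring

lemma Germ.hasDerivAt_g (G : Germ m g h) :
    ∀ᶠ z in 𝓝 (0 : ℂ), HasDerivAt g (1 + ((m + 1) * z ^ m * h z + z ^ (m + 1) * deriv h z)) z := by
  filter_upwards [G.hg.eventually_nhds, G.hh.eventually_analyticAt] with z hz hhz
  have h1 : HasDerivAt (fun z => z + z ^ (m + 1) * h z)
      (1 + (((m + 1 : ℕ) : ℂ) * z ^ m * h z + z ^ (m + 1) * deriv h z)) z := by
    have h2 := (hasDerivAt_pow (m + 1) z).mul hhz.differentiableAt.hasDerivAt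
    exact (hasDerivAt_id z).add h2
  push_cast at h1
  exact h1.congr_of_eventuallyEq hz

lemma Germ.tendsto_rho (G : Germ m g h) :
    Tendsto (fun z => Wc m (h 0) z * (deriv g z * z / g z - 1)) (𝓝[≠] 0) (𝓝 (-1)) := by
  have hm := G.hm
  have hmC : (m : ℂ) ≠ 0 := by exact_mod_cast (by omega : m ≠ 0)
  have h00 := G.h0
  have hid : Tendsto (fun z : ℂ => z) (𝓝[≠] 0) (𝓝 0) := tendsto_id.mono_left nhdsWithin_le_nhds
  have hdh : Tendsto (deriv h) (𝓝[≠] 0) (𝓝 (deriv h 0)) :=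
    G.hh.deriv.continuousAt.tendsto.mono_left nhdsWithin_le_nhds
  have h1 : Tendsto (fun z => -(m * h z + z * deriv h z) / (m * h 0 * (1 + z ^ m * h z)))
      (𝓝[≠] 0) (𝓝 (-(m * h 0 + 0 * deriv h 0) / (m * h 0 * (1 + 0)))) := by
    refine Tendsto.div ?_ ?_ ?_
    · exact ((G.tendsto_h.const_mul _).add (hid.mul hdh)).neg
    · exact (G.tendsto_u.const_add 1).const_mul _
    · simp [hmC, h00]
  have h2 : -(m * h 0 + 0 * deriv h 0) / (m * h 0 * (1 + 0)) = -1 := by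
    field_simp; ring
  rw [h2] at h1
  refine h1.congr' ?_
  filter_upwards [G.ev_ne, ev_ne0, G.ev_g, G.ev_one,
    G.hasDerivAt_g.filter_mono nhdsWithin_le_nhds] with z hz hz0 hgz h1 hd
  rw [hd.deriv, hgz, Wc]
  have hzm : z ^ m ≠ 0 := pow_ne_zero _ hz0
  have e : 1 + ((m + 1) * z ^ m * h z + z ^ (m + 1) * deriv h z)
      = (1 + z ^ m * h z) + z ^ m * (m * h z + z * deriv h z) := by ring
  rw [e]
  generalize 1 + z ^ m * h z = t at h1
  field_simp
  ring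

/-! ### the sector of an attracting direction -/

/-- `v` is an attracting direction, with `κ = W(v) > 0` -/
structure Dir (m : ℕ) (a : ℂ) (κ : ℝ) (v : ℂ) : Prop where
  hm : 1 ≤ m
  ha : a ≠ 0
  hκ : 0 < κ
  hv : ‖v‖ = 1
  hW : Wc m a v = κ

variable {a v : ℂ} {κ : ℝ}

lemma Dir.v_ne (D : Dir m a κ v) : v ≠ 0 := by
  intro h0
  have := D.hv
  rw [h0] at this
  simp at this

lemma Dir.W_eq (D : Dir m a κ v) (z : ℂ) : Wc m a z = κ * (v / z) ^ m := by
  have hv := D.v_ne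
  have ha := D.ha
  have hmC : (m : ℂ) ≠ 0 := by
    have := D.hm
    exact_mod_cast (by omega : m ≠ 0)
  rw [← D.hW, Wc, Wc, div_pow]
  rcases eq_or_ne z 0 with rfl | hz
  · have : (0 : ℂ) ^ m = 0 := zero_pow (by have := D.hm; omega)
    simp [this]
  · have hvm : v ^ m ≠ 0 := pow_ne_zero _ hv
    have hzm : z ^ m ≠ 0 := pow_ne_zero _ hz
    field_simp

lemma Dir.norm_W (D : Dir m a κ v) (z : ℂ) : ‖Wc m a z‖ = κ / ‖z‖ ^ m := by
  rw [D.W_eq, norm_mul, norm_pow, norm_div, D.hv, Complex.norm_real, Real.norm_of_nonneg D.hκ.le]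
  rw [div_pow, one_pow]
  ring

lemma W_mul (m : ℕ) (a z s : ℂ) : Wc m a (z * s) = Wc m a z * (s ^ m)⁻¹ := by
  unfold Wc
  rw [mul_pow, ← mul_assoc, div_eq_mul_inv, div_eq_mul_inv, mul_inv]
  ring

lemma Dir.ne_zero_of_W (D : Dir m a κ v) {z : ℂ} (h : Wc m a z ≠ 0) : z ≠ 0 := by
  rintro rfl
  apply h
  have : (0 : ℂ) ^ m = 0 := zero_pow (by have := D.hm; omega)
  simp [Wc, this]

lemma Dir.W_Psi (D : Dir m a κ v) {ζ : ℂ} (hζ : ζ ≠ 0) : Wc m a (Psi m κ v ζ) = ζ := by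
  have hv := D.v_ne
  have hκ : (κ : ℂ) ≠ 0 := by exact_mod_cast D.hκ.ne'
  have hmC : (m : ℂ) ≠ 0 := by
    have := D.hm
    exact_mod_cast (by omega : m ≠ 0)
  rw [D.W_eq, Psi]
  have h1 : v / (v * Complex.exp (-Complex.log (ζ / κ) / m)) =
      Complex.exp (Complex.log (ζ / κ) / m) := by
    rw [neg_div, Complex.exp_neg]
    have := Complex.exp_ne_zero (Complex.log (ζ / κ) / m)
    field_simp
  rw [h1, ← Complex.exp_nat_mul, mul_div_cancel₀ _ hmC, Complex.exp_log (div_ne_zero hζ hκ)]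
  field_simp

lemma arg_small (m : ℕ) : ∃ δ : ℝ, 0 < δ ∧ δ ≤ 1 / 2 ∧
    ∀ s : ℂ, ‖s - 1‖ < δ → |(m : ℝ) * s.arg| < Real.pi / 2 := by
  have h1 : ContinuousAt Complex.arg 1 := Complex.continuousAt_arg (by simp)
  have h2 : Tendsto (fun s : ℂ => |(m : ℝ) * s.arg|) (𝓝 1) (𝓝 0) := by
    have h3 := (h1.tendsto.const_mul (m : ℝ)).abs
    simpa using h3
  have h4 := h2.eventually (gt_mem_nhds (show (0 : ℝ) < Real.pi / 2 by positivity))
  rw [Metric.eventually_nhds_iff] at h4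
  obtain ⟨δ, hδ, h5⟩ := h4
  refine ⟨min δ (1 / 2), by positivity, min_le_right _ _, fun s hs => ?_⟩
  apply h5
  rw [dist_eq_norm]
  exact lt_of_lt_of_le hs (min_le_left _ _)

lemma Dir.branch (D : Dir m a κ v) {z s : ℂ} (hz : Psi m κ v (Wc m a z) = z)
    (hre : 0 < (Wc m a z).re) (hs0 : s ≠ 0) (hs : |(m : ℝ) * s.arg| < Real.pi / 2) :
    Psi m κ v (Wc m a (z * s)) = z * s := by
  have hκ : (κ : ℂ) ≠ 0 := by exact_mod_cast D.hκ.ne'
  have hmC : (m : ℂ) ≠ 0 := by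
    have := D.hm
    exact_mod_cast (by omega : m ≠ 0)
  set w : ℂ := Wc m a z / κ with hw
  have hwre : 0 < w.re := by
    rw [hw, Complex.div_ofReal_re]
    exact div_pos hre D.hκ
  have hw0 : w ≠ 0 := by
    intro h0
    rw [h0] at hwre
    simp at hwre
  have harg : |w.arg| < Real.pi / 2 := by
    rw [Complex.abs_arg_lt_pi_div_two_iff]
    left; exact hwre
  set L : ℂ := Complex.log w - m * Complex.log s with hL
  have hexp : Complex.exp L = w * (s ^ m)⁻¹ := by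
    rw [hL, Complex.exp_sub, Complex.exp_log hw0, Complex.exp_nat_mul, Complex.exp_log hs0,
      div_eq_mul_inv]
  have him : L.im = w.arg - m * s.arg := by
    rw [hL, Complex.sub_im, Complex.log_im]
    congr 1
    simp [Complex.mul_im, Complex.log_im]
  have hlog : Complex.log (Wc m a (z * s) / κ) = L := by
    rw [W_mul, mul_div_right_comm, ← hw, ← hexp]
    apply Complex.log_exp
    · rw [him]
      have := abs_lt.1 harg
      have := abs_lt.1 hs
      linarith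
    · rw [him]
      have := abs_lt.1 harg
      have := abs_lt.1 hs
      linarith
  have hz' : v * Complex.exp (-Complex.log w / m) = z := hz
  rw [Psi, hlog, hL]
  have : -(Complex.log w - m * Complex.log s) / m = -Complex.log w / m + Complex.log s := by
    field_simp
    ring
  rw [this, Complex.exp_add, Complex.exp_log hs0, ← mul_assoc, hz']

/-- the petal of the direction `v` -/
def Pet (m : ℕ) (a : ℂ) (κ : ℝ) (v : ℂ) (R : ℝ) : Set ℂ :=
  {z | R < (Wc m a z).re ∧ Psi m κ v (Wc m a z) = z}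


/-- closeness lemma: points near a petal point, with `W` in the half plane, are petal points -/
lemma Dir.near (D : Dir m a κ v) : ∃ δ : ℝ, 0 < δ ∧ δ ≤ 1 / 2 ∧ ∀ R : ℝ, 0 ≤ R → ∀ z ∈ Pet m a κ v R,
    ∀ z' : ℂ, ‖z' - z‖ < δ * ‖z‖ → R < (Wc m a z').re → z' ∈ Pet m a κ v R := by
  obtain ⟨δ, hδ, hδ2, h⟩ := arg_small m
  refine ⟨δ, hδ, hδ2, fun R hR z hz z' hz' hre => ⟨hre, ?_⟩⟩
  have hz0 : z ≠ 0 := D.ne_zero_of_W (by
    intro h0
    have := hz.1
    rw [h0] at this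
    simp at this
    linarith)
  have hs : ‖z' / z - 1‖ < δ := by
    have : z' / z - 1 = (z' - z) / z := by field_simp
    rw [this, norm_div, div_lt_iff₀ (norm_pos_iff.2 hz0)]
    exact hz'
  have hs0 : z' / z ≠ 0 := by
    intro h0
    rw [h0] at hs
    simp at hs
    linarith
  have h1 := D.branch hz.2 (lt_of_le_of_lt hR hz.1) hs0 (h _ hs)
  rwa [mul_div_cancel₀ _ hz0] at h1

/-- the radius/threshold data of the local dynamics -/
lemma dyn (G : Germ m g h) (D : Dir m (h 0) κ v) (ρ : ℝ) (hρ : 0 < ρ) :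
    ∃ R : ℝ, 0 < R ∧ ∀ R' ≥ R, ∀ z ∈ Pet m (h 0) κ v R',
      ‖z‖ < ρ ∧ g z ∈ Pet m (h 0) κ v R' ∧ ‖Wc m (h 0) (g z) - Wc m (h 0) z - 1‖ < 1 / 2 := by
  obtain ⟨δ, hδ, hδ2, hnear⟩ := D.near
  have h1 := G.tendsto_ratio.sub_const 1
  have h2 := (G.tendsto_W.sub_const 1)
  rw [sub_self] at h1 h2
  have h1' := h1.norm.eventually (gt_mem_nhds (show ‖(0 : ℂ)‖ < δ by simpa using hδ))
  have h2' := h2.norm.eventually (gt_mem_nhds (show ‖(0 : ℂ)‖ < 1 / 2 by simp))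
  have h3 := h1'.and h2'
  rw [eventually_nhdsWithin_iff, Metric.eventually_nhds_iff] at h3
  obtain ⟨r, hr, h4⟩ := h3
  have hmin : 0 < min r ρ := lt_min hr hρ
  refine ⟨κ / (min r ρ) ^ m, div_pos D.hκ (pow_pos hmin _), fun R' hR' z hz => ?_⟩
  have hRpos : 0 < κ / (min r ρ) ^ m := div_pos D.hκ (pow_pos hmin _)
  have hre : κ / (min r ρ) ^ m < (Wc m (h 0) z).re := lt_of_le_of_lt hR' hz.1
  have hz0 : z ≠ 0 := D.ne_zero_of_W (by
    intro h0
    rw [h0] at hre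
    simp only [Complex.zero_re] at hre
    linarith)
  have hzn : 0 < ‖z‖ := norm_pos_iff.2 hz0
  have hzs : ‖z‖ < min r ρ := by
    have h5 : κ / (min r ρ) ^ m < κ / ‖z‖ ^ m := by
      rw [← D.norm_W]
      exact lt_of_lt_of_le hre (Complex.re_le_norm _)
    have h6 : ‖z‖ ^ m < (min r ρ) ^ m := by
      rw [div_lt_div_iff₀ (pow_pos hmin _) (pow_pos hzn _)] at h5
      exact lt_of_mul_lt_mul_left h5 D.hκ.le
    exact lt_of_pow_lt_pow_left₀ m hmin.le h6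
  obtain ⟨h7, h8⟩ := h4 (y := z) (by rw [dist_zero_right]; exact lt_of_lt_of_le hzs (min_le_left _ _)) hz0
  refine ⟨lt_of_lt_of_le hzs (min_le_right _ _), ?_, h8⟩
  apply hnear R' (by linarith) z hz
  · have : g z - z = (g z / z - 1) * z := by field_simp
    rw [this, norm_mul]
    exact mul_lt_mul_of_pos_right h7 hzn
  · have h9 := Complex.abs_re_le_norm (Wc m (h 0) (g z) - Wc m (h 0) z - 1)
    simp only [Complex.sub_re, Complex.one_re] at h9
    have h10 := (abs_le.1 (h9.trans h8.le)).1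
    have := hz.1
    linarith

end

end Pool.Agent.TH620B
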